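import Mathlib

set_option autoImplicit false

open Set Filter Topology

namespace Pool.Agent.Lib_helper98.SM

variable {ι : Type*}

/-- Under `m` the point `i` is matched within distance `d`. -/
def Near (X : ι → ℝ) (m : ι → ι) (i : ι) (d : ℝ) : Prop := m i ≠ i ∧ |X i - X (m i)| ≤ d

/-- `m` is a stable matching of the points with index in `I`. -/
structure Stab (X : ι → ℝ) (c : ι → Bool) (I : Set ι) (m : ι → ι) : Prop where
  inv : ∀ i, m (m i) = i
  supp : ∀ i, m i ≠ i → i ∈ I
  compat : ∀ i, m i ≠ i → c i = true ∨ c (m i) = true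
  stab : ∀ i ∈ I, ∀ j ∈ I, i ≠ j → (c i = true ∨ c j = true) →
    Near X m i |X i - X j| ∨ Near X m j |X i - X j|

/-- `m` is a stable matching of the points with index in `I`, truncated at scale `r`. -/
structure Trunc (X : ι → ℝ) (c : ι → Bool) (I : Set ι) (r : ℝ) (m : ι → ι) : Prop where
  inv : ∀ i, m (m i) = i
  supp : ∀ i, m i ≠ i → i ∈ I
  compat : ∀ i, m i ≠ i → c i = true ∨ c (m i) = true
  len : ∀ i, m i ≠ i → |X i - X (m i)| < r
  stab : ∀ i ∈ I, ∀ j ∈ I, i ≠ j → (c i = true ∨ c j = true) → |X i - X j| < r →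
    Near X m i |X i - X j| ∨ Near X m j |X i - X j|

section
variable {X : ι → ℝ} {c : ι → Bool} {I : Set ι} {r : ℝ} {m : ι → ι}

lemma Near.mono {i : ι} {d e : ℝ} (h : Near X m i d) (hde : d ≤ e) : Near X m i e :=
  ⟨h.1, h.2.trans hde⟩

lemma inv_ne {m : ι → ι} (hinv : ∀ i, m (m i) = i) {i : ι} (h : m i ≠ i) : m (m i) ≠ m i := by
  rw [hinv i]; exact h.symm

/-- Truncation of a matching at scale `r`. -/
noncomputable def tr (X : ι → ℝ) (r : ℝ) (m : ι → ι) : ι → ι := fun i =>
  open Classical in if |X i - X (m i)| < r then m i else i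

lemma tr_of_lt {i : ι} (h : |X i - X (m i)| < r) : tr X r m i = m i := by
  simp [tr, h]

lemma tr_of_not_lt {i : ι} (h : ¬ |X i - X (m i)| < r) : tr X r m i = i := by
  simp [tr, h]

lemma tr_inv (hinv : ∀ i, m (m i) = i) (i : ι) : tr X r m (tr X r m i) = i := by
  by_cases h : |X i - X (m i)| < r
  · rw [tr_of_lt h]
    have h2 : |X (m i) - X (m (m i))| < r := by rw [hinv i, abs_sub_comm]; exact h
    rw [tr_of_lt h2, hinv]
  · rw [tr_of_not_lt h, tr_of_not_lt h]

lemma tr_ne {i : ι} (h : tr X r m i ≠ i) : m i ≠ i ∧ |X i - X (m i)| < r ∧ tr X r m i = m i := by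
  by_cases h2 : |X i - X (m i)| < r
  · rw [tr_of_lt h2] at h
    exact ⟨h, h2, tr_of_lt h2⟩
  · rw [tr_of_not_lt h2] at h
    exact absurd rfl h

lemma near_tr {i : ι} {d : ℝ} (h : Near X m i d) (hd : d < r) : Near X (tr X r m) i d := by
  have h2 : |X i - X (m i)| < r := lt_of_le_of_lt h.2 hd
  unfold Near
  rw [tr_of_lt h2]
  exact h

lemma near_of_near_tr {i : ι} {d : ℝ} (h : Near X (tr X r m) i d) : Near X m i d := by
  obtain ⟨h1, h2⟩ := h
  obtain ⟨h3, h4, h5⟩ := tr_ne h1
  rw [h5] at h2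
  exact ⟨h3, h2⟩

lemma Stab.trunc (h : Stab X c I m) (r : ℝ) : Trunc X c I r (tr X r m) where
  inv := tr_inv h.inv
  supp := fun i hi => h.supp i (tr_ne hi).1
  compat := fun i hi => by
    obtain ⟨h1, -, h3⟩ := tr_ne hi
    rw [h3]; exact h.compat i h1
  len := fun i hi => by
    obtain ⟨-, h2, h3⟩ := tr_ne hi
    rw [h3]; exact h2
  stab := fun i hi j hj hij hc hr => by
    rcases h.stab i hi j hj hij hc with h1 | h1
    · exact Or.inl (near_tr h1 hr)
    · exact Or.inr (near_tr h1 hr)

lemma Trunc.trunc {r' : ℝ} (h : Trunc X c I r m) (hr' : r' ≤ r) : Trunc X c I r' (tr X r' m) where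
  inv := tr_inv h.inv
  supp := fun i hi => h.supp i (tr_ne hi).1
  compat := fun i hi => by
    obtain ⟨h1, -, h3⟩ := tr_ne hi
    rw [h3]; exact h.compat i h1
  len := fun i hi => by
    obtain ⟨-, h2, h3⟩ := tr_ne hi
    rw [h3]; exact h2
  stab := fun i hi j hj hij hc hr => by
    rcases h.stab i hi j hj hij hc (hr.trans_le hr') with h1 | h1
    · exact Or.inl (near_tr h1 hr)
    · exact Or.inr (near_tr h1 hr)

/-- No two distances from a common point coincide. -/
def NoTies (X : ι → ℝ) : Prop := ∀ i j k, i ≠ j → i ≠ k → j ≠ k → |X i - X j| ≠ |X i - X k|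

/-- Local uniqueness of truncated stable matchings. -/
lemma Trunc.unique {m' : ι → ι} (hX : NoTies X) (h : Trunc X c I r m) (h' : Trunc X c I r m')
    (F : Finset ι) (hF : ∀ x ∈ F, ∀ y ∉ F, r ≤ |X x - X y|) : ∀ x ∈ F, m x = m' x := by
  classical
  by_contra hcon
  push Not at hcon
  obtain ⟨x, hxF, hx⟩ := hcon
  have hmem : ∀ {n : ι → ι}, Trunc X c I r n → ∀ y ∈ F, n y ≠ y → n y ∈ F := by
    intro n hn y hy hne
    by_contra hnot
    exact absurd (hn.len y hne) (not_lt.2 (hF y hy _ hnot))
  let Δ : Finset (ι × ι) := (F ×ˢ F).filter fun q => q.1 ≠ q.2 ∧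
    ((m q.1 = q.2 ∧ m' q.1 ≠ q.2) ∨ (m' q.1 = q.2 ∧ m q.1 ≠ q.2))
  have hne : Δ.Nonempty := by
    by_cases h1 : m x = x
    · have h2 : m' x ≠ x := fun h2 => hx (h1.trans h2.symm)
      exact ⟨(x, m' x), Finset.mem_filter.2
        ⟨Finset.mem_product.2 ⟨hxF, hmem h' x hxF h2⟩, h2.symm, Or.inr ⟨rfl, hx⟩⟩⟩
    · exact ⟨(x, m x), Finset.mem_filter.2
        ⟨Finset.mem_product.2 ⟨hxF, hmem h x hxF h1⟩, fun h2 => h1 h2.symm,
          Or.inl ⟨rfl, fun h2 => hx h2.symm⟩⟩⟩
  obtain ⟨⟨i, j⟩, hij, hmin⟩ := Finset.exists_min_image Δ (fun q => |X q.1 - X q.2|) hne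
  -- the symmetric step
  have step : ∀ (n n' : ι → ι), Trunc X c I r n → Trunc X c I r n' →
      (∀ a ∈ F, ∀ b ∈ F, a ≠ b → ((n a = b ∧ n' a ≠ b) ∨ (n' a = b ∧ n a ≠ b)) → 
        |X i - X j| ≤ |X a - X b|) → i ∈ F → j ∈ F → i ≠ j → n i = j → n' i ≠ j → False := by
    intro n n' hn hn' hmin' hi hj hij hnij hn'ij
    have hni : n i ≠ i := by rw [hnij]; exact hij.symm
    have hnj : n j = i := by rw [← hnij]; exact hn.inv i
    have hnj' : n j ≠ j := by rw [hnj]; exact hij
    have hn'ji : n' j ≠ i := fun h2 => hn'ij (by rw [← h2]; exact hn'.inv j)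
    have hlen : |X i - X j| < r := by
      have := hn.len i hni
      rwa [hnij] at this
    have hc : c i = true ∨ c j = true := by
      have := hn.compat i hni
      rwa [hnij] at this
    rcases hn'.stab i (hn.supp i hni) j (hn.supp j hnj') hij hc hlen with h1 | h1
    · obtain ⟨h1, h2⟩ := h1
      have hk : n' i ∈ F := hmem hn' i hi h1
      have h3 := hmin' i hi (n' i) hk h1.symm (Or.inr ⟨rfl, by rw [hnij]; exact hn'ij.symm⟩)
      exact hX i j (n' i) hij h1.symm hn'ij.symm (le_antisymm h3 h2)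
    · obtain ⟨h1, h2⟩ := h1
      have hk : n' j ∈ F := hmem hn' j hj h1
      have h3 := hmin' j hj (n' j) hk h1.symm (Or.inr ⟨rfl, by rw [hnj]; exact hn'ji.symm⟩)
      have h4 : |X j - X i| = |X i - X j| := abs_sub_comm _ _
      exact hX j i (n' j) hij.symm h1.symm hn'ji.symm (by rw [h4]; exact le_antisymm h3 h2)
  simp only [Δ, Finset.mem_filter, Finset.mem_product] at hij
  obtain ⟨⟨hi, hj⟩, hij', hcase⟩ := hij
  have hmin1 : ∀ a ∈ F, ∀ b ∈ F, a ≠ b → ((m a = b ∧ m' a ≠ b) ∨ (m' a = b ∧ m a ≠ b)) →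
      |X i - X j| ≤ |X a - X b| := fun a ha b hb hab hh =>
    hmin (a, b) (by
      simp only [Δ, Finset.mem_filter, Finset.mem_product]
      exact ⟨⟨ha, hb⟩, hab, hh⟩)
  rcases hcase with ⟨h1, h2⟩ | ⟨h1, h2⟩
  · exact step m m' h h' hmin1 hi hj hij' h1 h2
  · exact step m' m h' h (fun a ha b hb hab hh => hmin1 a ha b hb hab hh.symm) hi hj hij' h1 h2

/-- Existence of stable matchings on finite sets. -/
lemma exists_stab_finset (X : ι → ℝ) (c : ι → Bool) (S : Finset ι) :
    ∃ m, Stab X c (↑S : Set ι) m := by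
  classical
  induction hn : S.card using Nat.strong_induction_on generalizing S with
  | _ n ih =>
  let P : Finset (ι × ι) := (S ×ˢ S).filter fun q => q.1 ≠ q.2 ∧ (c q.1 = true ∨ c q.2 = true)
  by_cases hP : P.Nonempty
  · obtain ⟨⟨i, j⟩, hij, hmin⟩ := Finset.exists_min_image P (fun q => |X q.1 - X q.2|) hP
    simp only [P, Finset.mem_filter, Finset.mem_product] at hij
    obtain ⟨⟨hi, hj⟩, hne, hc⟩ := hij
    have hmin' : ∀ a ∈ S, ∀ b ∈ S, a ≠ b → (c a = true ∨ c b = true) →
        |X i - X j| ≤ |X a - X b| := fun a ha b hb hab hh =>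
      hmin (a, b) (by
        simp only [P, Finset.mem_filter, Finset.mem_product]
        exact ⟨⟨ha, hb⟩, hab, hh⟩)
    have hcard : ((S.erase i).erase j).card < n := by
      rw [← hn]
      exact lt_of_le_of_lt (Finset.card_le_card (Finset.erase_subset _ _))
        (Finset.card_erase_lt_of_mem hi)
    obtain ⟨m, hm⟩ := ih _ hcard ((S.erase i).erase j) rfl
    have hmi : m i = i := by
      by_contra h
      have := hm.supp i h
      simp at this
    have hmj : m j = j := by
      by_contra h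
      have := hm.supp j h
      simp at this
    have hmem : ∀ a, a ≠ i → a ≠ j → m a ≠ i ∧ m a ≠ j := by
      intro a hai haj
      constructor
      · intro h
        apply hai
        rw [← hm.inv a, h, hmi]
      · intro h
        apply haj
        rw [← hm.inv a, h, hmj]
    let m₂ : ι → ι := fun a => if a = i then j else if a = j then i else m a
    have m2i : m₂ i = j := by simp [m₂]
    have m2j : m₂ j = i := by simp [m₂, hne.symm]
    have m2a : ∀ a, a ≠ i → a ≠ j → m₂ a = m a := fun a h1 h2 => by simp [m₂, h1, h2]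
    refine ⟨m₂, ?_, ?_, ?_, ?_⟩
    · intro a
      by_cases h1 : a = i
      · subst h1; rw [m2i, m2j]
      · by_cases h2 : a = j
        · subst h2; rw [m2j, m2i]
        · rw [m2a a h1 h2, m2a _ (hmem a h1 h2).1 (hmem a h1 h2).2, hm.inv]
    · intro a ha
      by_cases h1 : a = i
      · subst h1; exact_mod_cast hi
      · by_cases h2 : a = j
        · subst h2; exact_mod_cast hj
        · rw [m2a a h1 h2] at ha
          have := hm.supp a ha
          simp only [Finset.coe_erase, Set.mem_sdiff, Finset.mem_coe] at this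
          exact_mod_cast this.1.1
    · intro a ha
      by_cases h1 : a = i
      · subst h1; rw [m2i]; exact hc
      · by_cases h2 : a = j
        · subst h2; rw [m2j]; exact hc.symm
        · rw [m2a a h1 h2] at ha ⊢
          exact hm.compat a ha
    · intro a ha b hb hab hcab
      have hle := hmin' a ha b hb hab hcab
      by_cases h1 : a = i
      · left
        subst h1
        exact ⟨by rw [m2i]; exact hne.symm, by rw [m2i]; exact hle⟩
      by_cases h2 : a = j
      · left
        subst h2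
        exact ⟨by rw [m2j]; exact hne, by rw [m2j, abs_sub_comm]; exact hle⟩
      by_cases h3 : b = i
      · right
        subst h3
        exact ⟨by rw [m2i]; exact hne.symm, by rw [m2i]; exact hle⟩
      by_cases h4 : b = j
      · right
        subst h4
        exact ⟨by rw [m2j]; exact hne, by rw [m2j, abs_sub_comm]; exact hle⟩
      have ha' : a ∈ ((((S.erase i).erase j : Finset ι)) : Set ι) := by
        simp only [Finset.coe_erase, Set.mem_sdiff, Finset.mem_coe, Set.mem_singleton_iff]
        exact ⟨⟨by exact_mod_cast ha, h1⟩, h2⟩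
      have hb' : b ∈ ((((S.erase i).erase j : Finset ι)) : Set ι) := by
        simp only [Finset.coe_erase, Set.mem_sdiff, Finset.mem_coe, Set.mem_singleton_iff]
        exact ⟨⟨by exact_mod_cast hb, h3⟩, h4⟩
      rcases hm.stab a ha' b hb' hab hcab with h | h
      · left
        unfold Near
        rw [m2a a h1 h2]
        exact h
      · right
        unfold Near
        rw [m2a b h3 h4]
        exact h
  · refine ⟨id, fun _ => rfl, fun i hi => absurd rfl hi, fun i hi => absurd rfl hi, ?_⟩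
    intro a ha b hb hab hcab
    exfalso
    apply hP
    exact ⟨(a, b), by
      simp only [P, Finset.mem_filter, Finset.mem_product]
      exact ⟨⟨ha, hb⟩, hab, hcab⟩⟩

/-- Existence of stable matchings, for locally finite configurations. -/
lemma exists_stab [Countable ι] (X : ι → ℝ) (c : ι → Bool) (I : Set ι)
    (hX : ∀ i d, {k | |X i - X k| ≤ d}.Finite) :
    ∃ m, Stab X c I m := by
  classical
  -- exhaust by finite sets
  obtain ⟨e, he⟩ : ∃ e : ι → ℕ, Function.Injective e := Countable.exists_injective_nat ι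
  let S : ℕ → Set ι := fun n => {i | i ∈ I ∧ e i ≤ n}
  have hSfin : ∀ n, (S n).Finite := by
    intro n
    apply Set.Finite.subset ((Set.finite_Iic n).preimage he.injOn)
    intro i hi
    exact hi.2
  have hex : ∀ n, ∃ m, Stab X c (S n) m := by
    intro n
    obtain ⟨m, hm⟩ := exists_stab_finset X c (hSfin n).toFinset
    rw [Set.Finite.coe_toFinset] at hm
    exact ⟨m, hm⟩
  choose M hM using hex
  let U : Ultrafilter ℕ := Filter.hyperfilter ℕ
  have hU : ∀ N : ℕ, ∀ᶠ n in (U : Filter ℕ), N ≤ n := by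
    intro N
    have h1 : {n : ℕ | N ≤ n} ∈ (Filter.cofinite : Filter ℕ) := by
      rw [Nat.cofinite_eq_atTop]
      exact Filter.eventually_ge_atTop N
    exact Filter.hyperfilter_le_cofinite h1
  -- the limit
  let Q : ι → ι → Prop := fun i j => ∀ᶠ n in (U : Filter ℕ), M n i = j
  have Quniq : ∀ i j k, Q i j → Q i k → j = k := by
    intro i j k h1 h2
    obtain ⟨n, h3, h4⟩ := (h1.and h2).exists
    exact h3.symm.trans h4
  let m : ι → ι := fun i => if h : ∃ j, Q i j then h.choose else i
  have hmQ : ∀ i j, Q i j → m i = j := by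
    intro i j h
    have hex : ∃ j, Q i j := ⟨j, h⟩
    simp only [m]
    rw [dif_pos hex]
    exact Quniq i _ _ hex.choose_spec h
  have hmn : ∀ i, (¬ ∃ j, Q i j) → m i = i := by
    intro i h
    simp only [m]
    rw [dif_neg h]
  have hmne : ∀ i, m i ≠ i → Q i (m i) := by
    intro i h
    by_cases hex : ∃ j, Q i j
    · obtain ⟨j, hj⟩ := hex
      rw [hmQ i j hj]
      exact hj
    · exact absurd (hmn i hex) h
  have near_lim : ∀ i d, (∀ᶠ n in (U : Filter ℕ), Near X (M n) i d) → Near X m i d := by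
    intro i d h
    have hfin := hX i d
    have h2 : ∀ᶠ n in (U : Filter ℕ), ∃ k ∈ hfin.toFinset, M n i = k := by
      filter_upwards [h] with n hn
      exact ⟨M n i, by simpa using hn.2, rfl⟩
    have h3 : ∃ k ∈ hfin.toFinset, ∀ᶠ n in (U : Filter ℕ), M n i = k := by
      by_contra hcon
      push Not at hcon
      have h4 : ∀ k ∈ hfin.toFinset, ∀ᶠ n in (U : Filter ℕ), ¬ M n i = k := by
        intro k hk
        exact Ultrafilter.eventually_not.2 (by simpa using hcon k hk)
      have h5 := (Filter.eventually_all_finset hfin.toFinset).2 h4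
      obtain ⟨n, ⟨k, hk, hk2⟩, h7⟩ := (h2.and h5).exists
      exact h7 k hk hk2
    obtain ⟨k, hk, hk2⟩ := h3
    have hmk := hmQ i k hk2
    obtain ⟨n, hn1, hn2⟩ := (h.and hk2).exists
    refine ⟨?_, ?_⟩
    · rw [hmk, ← hn2]; exact hn1.1
    · rw [hmk, ← hn2]; exact hn1.2
  refine ⟨m, ?_, ?_, ?_, ?_⟩
  · intro i
    by_cases h : m i = i
    · rw [h, h]
    · have h1 := hmne i h
      have h2 : Q (m i) i := by
        filter_upwards [h1] with n hn
        rw [← hn]; exact (hM n).inv i
      exact hmQ _ _ h2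
  · intro i hi
    obtain ⟨n, hn⟩ := (hmne i hi).exists
    have : M n i ≠ i := by rw [hn]; exact hi
    exact ((hM n).supp i this).1
  · intro i hi
    obtain ⟨n, hn⟩ := (hmne i hi).exists
    have : M n i ≠ i := by rw [hn]; exact hi
    have h2 := (hM n).compat i this
    rwa [hn] at h2
  · intro i hi j hj hij hc
    have h1 : ∀ᶠ n in (U : Filter ℕ), Near X (M n) i |X i - X j| ∨ Near X (M n) j |X i - X j| := by
      filter_upwards [hU (e i), hU (e j)] with n hn1 hn2
      exact (hM n).stab i ⟨hi, hn1⟩ j ⟨hj, hn2⟩ hij hc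
    rcases Ultrafilter.eventually_or.1 h1 with h2 | h2
    · exact Or.inl (near_lim i _ h2)
    · exact Or.inr (near_lim j _ h2)

end

end Pool.Agent.Lib_helper98.SM
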