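import Mathlib

set_option autoImplicit false

open Set Filter Topology MeasureTheory

namespace Pool.Agent.Lib_helper98.SM

section general

variable {J K E : Type*} [MeasurableSpace E] (ν : Measure E) [IsProbabilityMeasure ν]

/-- Product measure on `J → E`. -/
noncomputable abbrev iid (J : Type*) {E : Type*} [MeasurableSpace E] (ν : Measure E)
    [IsProbabilityMeasure ν] : Measure (J → E) :=
  Measure.infinitePi (fun _ : J => ν)

open Classical in
/-- Glue two configurations along `S`. -/
noncomputable def glueF (S : Set J) (q : (J → E) × (J → E)) : J → E :=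
  fun j => if j ∈ S then q.1 j else q.2 j

lemma measurable_glueF (S : Set J) : Measurable (glueF S : (J → E) × (J → E) → (J → E)) := by
  classical
  rw [measurable_pi_iff]
  intro j
  unfold glueF
  by_cases h : j ∈ S
  · simp only [if_pos h]
    exact (measurable_pi_apply j).comp measurable_fst
  · simp only [if_neg h]
    exact (measurable_pi_apply j).comp measurable_snd

lemma glue_map (S : Set J) : ((iid J ν).prod (iid J ν)).map (glueF S) = iid J ν := by
  classical
  apply Measure.eq_infinitePi
  intro s t ht
  rw [Measure.map_apply (measurable_glueF S) (MeasurableSet.pi s.countable_toSet fun _ _ => ht _)]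
  have hpre : (glueF S : (J → E) × (J → E) → (J → E)) ⁻¹' (Set.pi s t) =
      (Set.pi (s.filter fun j => j ∈ S : Finset J) t) ×ˢ
      (Set.pi (s.filter fun j => j ∉ S : Finset J) t) := by
    ext q
    simp only [Set.mem_preimage, Set.mem_pi, Finset.mem_coe, Set.mem_prod, Finset.mem_filter,
      glueF]
    constructor
    · intro h
      refine ⟨fun j hj => ?_, fun j hj => ?_⟩
      · have := h j hj.1
        rwa [if_pos hj.2] at this
      · have := h j hj.1
        rwa [if_neg hj.2] at this
    · rintro ⟨h1, h2⟩ j hj
      by_cases hS : j ∈ S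
      · rw [if_pos hS]; exact h1 j ⟨hj, hS⟩
      · rw [if_neg hS]; exact h2 j ⟨hj, hS⟩
  rw [hpre, Measure.prod_prod, Measure.infinitePi_pi _ (fun i _ => ht i),
    Measure.infinitePi_pi _ (fun i _ => ht i), Finset.prod_filter_mul_prod_filter_not]

lemma indep_of_dep (S : Set J) {A B : Set (J → E)} (hA : MeasurableSet A) (hB : MeasurableSet B)
    (hdA : ∀ z z' : J → E, (∀ j ∈ S, z j = z' j) → (z ∈ A → z' ∈ A))
    (hdB : ∀ z z' : J → E, (∀ j, j ∉ S → z j = z' j) → (z ∈ B → z' ∈ B)) :
    iid J ν (A ∩ B) = iid J ν A * iid J ν B := by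
  classical
  rw [← Measure.prod_prod, ← glue_map ν S, Measure.map_apply (measurable_glueF S) (hA.inter hB),
    glue_map ν S]
  congr 1
  ext q
  simp only [Set.mem_preimage, Set.mem_inter_iff, Set.mem_prod]
  have h1 : ∀ j ∈ S, glueF S q j = q.1 j := fun j hj => by simp [glueF, hj]
  have h2 : ∀ j, j ∉ S → glueF S q j = q.2 j := fun j hj => by simp [glueF, hj]
  constructor
  · rintro ⟨h3, h4⟩
    exact ⟨hdA _ _ h1 h3, hdB _ _ h2 h4⟩
  · rintro ⟨h3, h4⟩
    exact ⟨hdA _ _ (fun j hj => (h1 j hj).symm) h3, hdB _ _ (fun j hj => (h2 j hj).symm) h4⟩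

lemma reindex_map (e : K → J) (he : Function.Injective e) :
    (iid J ν).map (fun z k => z (e k)) = iid K ν := by
  classical
  apply Measure.eq_infinitePi
  intro s t ht
  have hmeas : Measurable fun (z : J → E) (k : K) => z (e k) :=
    measurable_pi_iff.2 fun k => measurable_pi_apply _
  rw [Measure.map_apply hmeas (MeasurableSet.pi s.countable_toSet fun _ _ => ht _)]
  let t' : J → Set E := fun j => if h : ∃ k, e k = j then t h.choose else univ
  have ht' : ∀ k, t' (e k) = t k := by
    intro k
    have hex : ∃ k', e k' = e k := ⟨k, rfl⟩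
    simp only [t']
    rw [dif_pos hex]
    congr 1
    exact he hex.choose_spec
  have hpre : (fun (z : J → E) (k : K) => z (e k)) ⁻¹' (Set.pi s t) =
      Set.pi (s.map ⟨e, he⟩ : Finset J) t' := by
    ext z
    simp only [Set.mem_preimage, Set.mem_pi, Finset.mem_coe, Finset.mem_map,
      Function.Embedding.coeFn_mk]
    constructor
    · rintro h j ⟨k, hk, rfl⟩
      rw [ht']; exact h k hk
    · intro h k hk
      have := h (e k) ⟨k, hk, rfl⟩
      rwa [ht'] at this
  have hmt : ∀ j, MeasurableSet (t' j) := by
    intro j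
    simp only [t']
    split_ifs
    · exact ht _
    · exact MeasurableSet.univ
  rw [hpre, Measure.infinitePi_pi _ (fun i _ => hmt i), Finset.prod_map]
  simp only [Function.Embedding.coeFn_mk, ht']

end general

end Pool.Agent.Lib_helper98.SM
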