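import Mathlib
import Pool.Agent.Lib_helper98.SM.Basic

set_option autoImplicit false

open Set Filter Topology

namespace Pool.Agent.Lib_helper98.SM

/-- Regular half-line configurations. -/
structure Cfg (X : ℕ → ℝ) : Prop where
  mono : StrictMono X
  noties : NoTies X
  gaps : ∀ (r : ℝ) (N : ℕ), ∃ n, N ≤ n ∧ r ≤ X (n + 1) - X n

/-- The points strictly between `0` and `n` are matched among themselves, and no red one of them
would prefer one of the (blue) end points. -/
def Clean (X : ℕ → ℝ) (c : ℕ → Bool) (n : ℕ) : Prop :=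
  ∃ m, Stab X c (Set.Ioo 0 n) m ∧ (∀ i ∈ Set.Ioo 0 n, m i ≠ i) ∧
    ∀ i ∈ Set.Ioo 0 n, c i = true → Near X m i (X i - X 0) ∧ Near X m i (X n - X i)

/-- A blue point at `k` is not matched at distance `< r` by the points to the right of `k`. -/
def Alive (X : ℕ → ℝ) (c : ℕ → Bool) (k : ℕ) (r : ℝ) : Prop :=
  ∃ m, Trunc X c (Set.Ioi k) r m ∧ ∀ i, k < i → c i = true → X i - X k < r →
    Near X m i (X i - X k)

section
variable {X : ℕ → ℝ} {c : ℕ → Bool}

lemma abs_sub_of_lt (hX : StrictMono X) {i j : ℕ} (h : i < j) : |X i - X j| = X j - X i := by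
  rw [abs_sub_comm, abs_of_pos (sub_pos.2 (hX h))]

lemma abs_sub_of_le (hX : StrictMono X) {i j : ℕ} (h : i ≤ j) : |X i - X j| = X j - X i := by
  rw [abs_sub_comm, abs_of_nonneg (sub_nonneg.2 (hX.monotone h))]

lemma Cfg.tendsto (h : Cfg X) (i : ℕ) (d : ℝ) : {k | |X i - X k| ≤ d}.Finite := by
  obtain ⟨n, hn, hg⟩ := h.gaps (d + 1) i
  apply (Set.finite_Iic n).subset
  intro k hk
  by_contra hkn
  simp only [Set.mem_Iic, not_le] at hkn
  have h1 : X (n + 1) ≤ X k := h.mono.monotone hkn
  have h2 : X i ≤ X n := h.mono.monotone hn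
  have h3 : |X i - X k| ≤ d := hk
  rw [abs_sub_of_lt h.mono (lt_of_le_of_lt hn hkn)] at h3
  linarith

/-- A block which is separated from the rest by a gap. -/
lemma Cfg.block (h : Cfg X) (r : ℝ) (k : ℕ) : ∃ F : Finset ℕ, k ∈ F ∧
    ∀ x ∈ F, ∀ y ∉ F, r ≤ |X x - X y| := by
  obtain ⟨n, hn, hg⟩ := h.gaps r k
  refine ⟨Finset.range (n + 1), Finset.mem_range.2 (by omega), ?_⟩
  intro x hx y hy
  simp only [Finset.mem_range, not_lt] at hx hy
  have h1 : X (n + 1) ≤ X y := h.mono.monotone hy
  have h2 : X x ≤ X n := h.mono.monotone (by omega)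
  rw [abs_sub_of_lt h.mono (by omega)]
  linarith

lemma Cfg.unique (h : Cfg X) {I : Set ℕ} {r : ℝ} {m m' : ℕ → ℕ} (hm : Trunc X c I r m)
    (hm' : Trunc X c I r m') : m = m' := by
  ext x
  obtain ⟨F, hF, hF'⟩ := h.block r x
  exact hm.unique h.noties hm' F hF' x hF

lemma Cfg.exists_stab (h : Cfg X) (c : ℕ → Bool) (I : Set ℕ) : ∃ m, Stab X c I m :=
  SM.exists_stab X c I h.tendsto

/-- The structure to the left and to the right of the partner of the blue wall `0`. -/
lemma partner_struct (hX : StrictMono X) {m : ℕ → ℕ} (hm : Stab X c Set.univ m)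
    (h0 : m 0 ≠ 0) (hc : c 0 = false) :
    c (m 0) = true ∧ Clean X c (m 0) ∧ Alive X c (m 0) (X (m 0) - X 0) := by
  set n := m 0 with hn
  have hnpos : 0 < n := Nat.pos_of_ne_zero h0
  have hmn : m n = 0 := by rw [hn]; exact hm.inv 0
  have hcn : c n = true := by
    rcases hm.compat 0 h0 with h | h
    · rw [hc] at h; exact absurd h (by simp)
    · exact h
  have hXn : X 0 < X n := hX hnpos
  have hint : ∀ i, 0 < i → i < n → Near X m i (X n - X i) ∧ 0 < m i ∧ m i < n := by
    intro i hi hin
    have hne : i ≠ n := hin.ne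
    have h1 := hm.stab i (Set.mem_univ _) n (Set.mem_univ _) hne (Or.inr hcn)
    rw [abs_sub_of_lt hX hin] at h1
    have h2 : Near X m i (X n - X i) := by
      rcases h1 with h1 | h1
      · exact h1
      · exfalso
        obtain ⟨-, h3⟩ := h1
        rw [hmn, abs_of_pos (by linarith)] at h3
        have := hX hi
        linarith
    have hmi0 : m i ≠ 0 := by
      intro h
      have : m (m i) = n := by rw [h]
      rw [hm.inv] at this
      exact hne this
    have hmin : m i ≠ n := by
      intro h
      have : m (m i) = 0 := by rw [h]; exact hmn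
      rw [hm.inv] at this
      omega
    refine ⟨h2, Nat.pos_of_ne_zero hmi0, ?_⟩
    by_contra hcon
    have hlt : n < m i := lt_of_le_of_ne (not_lt.1 hcon) (Ne.symm hmin)
    have h4 := h2.2
    rw [abs_sub_of_lt hX (hin.trans hlt)] at h4
    have := hX hlt
    linarith
  have hred : ∀ i, 0 < i → i < n → c i = true → Near X m i (X i - X 0) := by
    intro i hi hin hci
    have h1 := hm.stab 0 (Set.mem_univ _) i (Set.mem_univ _) hi.ne (Or.inr hci)
    rw [abs_sub_of_lt hX hi] at h1
    rcases h1 with h1 | h1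
    · exfalso
      obtain ⟨-, h3⟩ := h1
      rw [← hn, abs_sub_of_lt hX hnpos] at h3
      have := hX hin
      linarith
    · exact h1
  refine ⟨hcn, ?_, ?_⟩
  · -- Clean
    let m' : ℕ → ℕ := fun i => if 0 < i ∧ i < n then m i else i
    have e1 : ∀ i, 0 < i → i < n → m' i = m i := fun i h1 h2 => if_pos ⟨h1, h2⟩
    have e2 : ∀ i, ¬ (0 < i ∧ i < n) → m' i = i := fun i h => if_neg h
    have e3 : ∀ i, m' i ≠ i → 0 < i ∧ i < n := by
      intro i hi
      by_contra h
      exact hi (e2 i h)
    refine ⟨m', ⟨?_, ?_, ?_, ?_⟩, ?_, ?_⟩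
    · intro i
      by_cases h : 0 < i ∧ i < n
      · obtain ⟨-, h1, h2⟩ := hint i h.1 h.2
        rw [e1 i h.1 h.2, e1 _ h1 h2, hm.inv]
      · rw [e2 i h, e2 i h]
    · intro i hi
      exact e3 i hi
    · intro i hi
      obtain ⟨h1, h2⟩ := e3 i hi
      rw [e1 i h1 h2] at hi ⊢
      exact hm.compat i hi
    · intro i hi j hj hij hcc
      rcases hm.stab i (Set.mem_univ _) j (Set.mem_univ _) hij hcc with h | h
      · left; unfold Near; rw [e1 i hi.1 hi.2]; exact h
      · right; unfold Near; rw [e1 j hj.1 hj.2]; exact h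
    · intro i hi
      rw [e1 i hi.1 hi.2]
      exact (hint i hi.1 hi.2).1.1
    · intro i hi hci
      unfold Near
      rw [e1 i hi.1 hi.2]
      exact ⟨hred i hi.1 hi.2 hci, (hint i hi.1 hi.2).1⟩
  · -- Alive
    have hright : ∀ i, n < i → m i ≠ i → n < m i := by
      intro i hi hmi
      by_contra hcon
      push Not at hcon
      have h1 : m i ≠ n := by
        intro h
        have : m (m i) = 0 := by rw [h]; exact hmn
        rw [hm.inv] at this
        omega
      have h2 : m i ≠ 0 := by
        intro h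
        have : m (m i) = n := by rw [h]
        rw [hm.inv] at this
        omega
      obtain ⟨-, -, h4⟩ := hint (m i) (Nat.pos_of_ne_zero h2) (lt_of_le_of_ne hcon h1)
      rw [hm.inv] at h4
      omega
    let m' : ℕ → ℕ := fun i => if n < i then m i else i
    have e1 : ∀ i, n < i → m' i = m i := fun i h1 => if_pos h1
    have e2 : ∀ i, ¬ (n < i) → m' i = i := fun i h => if_neg h
    have e3 : ∀ i, m' i ≠ i → n < i := by
      intro i hi
      by_contra h
      exact hi (e2 i h)
    have hS : Stab X c (Set.Ioi n) m' := by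
      refine ⟨?_, ?_, ?_, ?_⟩
      · intro i
        by_cases h : n < i
        · rw [e1 i h]
          by_cases h2 : m i = i
          · rw [h2, e1 i h, h2]
          · rw [e1 _ (hright i h h2), hm.inv]
        · rw [e2 i h, e2 i h]
      · intro i hi
        exact e3 i hi
      · intro i hi
        have h1 := e3 i hi
        rw [e1 i h1] at hi ⊢
        exact hm.compat i hi
      · intro i hi j hj hij hcc
        rcases hm.stab i (Set.mem_univ _) j (Set.mem_univ _) hij hcc with h | h
        · left; unfold Near; rw [e1 i hi]; exact h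
        · right; unfold Near; rw [e1 j hj]; exact h
    refine ⟨_, hS.trunc (X n - X 0), ?_⟩
    intro i hi hci hd
    apply near_tr _ hd
    have h1 := hm.stab n (Set.mem_univ _) i (Set.mem_univ _) hi.ne (Or.inr hci)
    rw [abs_sub_of_lt hX hi] at h1
    rcases h1 with h1 | h1
    · exfalso
      obtain ⟨-, h3⟩ := h1
      rw [hmn, abs_of_pos (by linarith)] at h3
      linarith
    · unfold Near
      rw [e1 i hi]
      exact h1

lemma Alive.mono {k : ℕ} {r r' : ℝ} (h : Alive X c k r) (hr : r' ≤ r) : Alive X c k r' := by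
  obtain ⟨m, hm, hm'⟩ := h
  refine ⟨_, hm.trunc hr, ?_⟩
  intro i hi hci hd
  exact near_tr (hm' i hi hci (hd.trans_le hr)) hd

/-- If the blue wall `0` survives to `a` and not to `b`, there is a killer. -/
lemma exists_killer (h : Cfg X) (hc : c 0 = false) {a b : ℝ} (ha : Alive X c 0 a)
    (hb : ¬ Alive X c 0 b) :
    ∃ n, 0 < n ∧ a ≤ X n - X 0 ∧ X n - X 0 < b ∧ c n = true ∧ Clean X c n ∧ Alive X c n a := by
  obtain ⟨m, hm⟩ := h.exists_stab c Set.univ
  -- the wall is matched at distance `< b`
  have key : ∀ s : ℝ, (∀ n, m 0 = n → n ≠ 0 → s ≤ X n - X 0) → Alive X c 0 s := by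
    intro s hs
    have htr := hm.trunc s
    have h0 : tr X s m 0 = 0 := by
      by_contra h0
      obtain ⟨h1, h2, -⟩ := tr_ne h0
      have h3 := hs _ rfl h1
      rw [abs_sub_of_lt h.mono (Nat.pos_of_ne_zero h1)] at h2
      linarith
    refine ⟨tr X s m, ⟨htr.inv, ?_, htr.compat, htr.len, ?_⟩, ?_⟩
    · intro i hi
      apply Nat.pos_of_ne_zero
      intro h1
      rw [h1] at hi
      exact hi h0
    · intro i hi j hj hij hcc hd
      exact htr.stab i (Set.mem_univ _) j (Set.mem_univ _) hij hcc hd
    · intro i hi hci hd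
      have h1 := htr.stab 0 (Set.mem_univ _) i (Set.mem_univ _) hi.ne (Or.inr hci)
        (by rw [abs_sub_of_lt h.mono hi]; exact hd)
      rw [abs_sub_of_lt h.mono hi] at h1
      rcases h1 with h1 | h1
      · exact absurd h0 h1.1
      · exact h1
  have hex : ∃ n, m 0 = n ∧ n ≠ 0 ∧ X n - X 0 < b := by
    by_contra hcon
    push Not at hcon
    exact hb (key b hcon)
  obtain ⟨n, hn, hn0, hnb⟩ := hex
  have hpos : 0 < n := Nat.pos_of_ne_zero hn0
  have h0 : m 0 ≠ 0 := by rw [hn]; exact hn0
  obtain ⟨h1, h2, h3⟩ := partner_struct h.mono hm h0 hc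
  rw [hn] at h1 h2 h3
  -- `a ≤ X n - X 0` by uniqueness
  have han : a ≤ X n - X 0 := by
    by_contra hcon
    push Not at hcon
    obtain ⟨m₁, hm₁, hm₁'⟩ := ha
    have hm₁0 : m₁ 0 = 0 := by
      by_contra h4
      have := hm₁.supp 0 h4
      simp at this
    have hT : Trunc X c Set.univ a m₁ := by
      refine ⟨hm₁.inv, fun i _ => Set.mem_univ i, hm₁.compat, hm₁.len, ?_⟩
      intro i _ j _ hij hcc hd
      by_cases hi0 : i = 0
      · subst hi0
        have hj : 0 < j := Nat.pos_of_ne_zero (Ne.symm hij)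
        have hcj : c j = true := by
          rcases hcc with h5 | h5
          · rw [hc] at h5; exact absurd h5 (by simp)
          · exact h5
        right
        rw [abs_sub_of_lt h.mono hj] at hd ⊢
        exact hm₁' j hj hcj hd
      · by_cases hj0 : j = 0
        · subst hj0
          have hi : 0 < i := Nat.pos_of_ne_zero hi0
          have hci : c i = true := by
            rcases hcc with h5 | h5
            · exact h5
            · rw [hc] at h5; exact absurd h5 (by simp)
          left
          rw [abs_sub_comm, abs_sub_of_lt h.mono hi] at hd ⊢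
          exact hm₁' i hi hci hd
        · exact hm₁.stab i (Nat.pos_of_ne_zero hi0) j (Nat.pos_of_ne_zero hj0) hij hcc hd
    have heq := h.unique hT (hm.trunc a)
    have h6 : tr X a m 0 = n := by
      rw [tr_of_lt, hn]
      rw [hn, abs_sub_of_lt h.mono hpos]
      exact hcon
    rw [← heq, hm₁0] at h6
    exact hn0 h6.symm
  exact ⟨n, hpos, han, hnb, h1, h2, h3.mono han⟩

/-- Gluing at a blue point. -/
lemma glue (hX : StrictMono X) {n : ℕ} (hn : 0 < n) (hcn : c n = false) (hclean : Clean X c n)
    {r : ℝ} (hr : X n - X 0 < r) (hal : Alive X c n r) :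
    ∃ m, Trunc X c (Set.Ioi 0) r m ∧ (∀ i, 0 < i → c i = true → X i - X 0 < r →
      Near X m i (X i - X 0)) ∧ m n = n ∧ ∀ i, 0 < i → i < n → m i ≠ i := by
  obtain ⟨m₁, h1, h2, h3⟩ := hclean
  obtain ⟨m₂, h4, h5⟩ := hal
  have s1 : ∀ i, m₁ i ≠ i → 0 < i ∧ i < n := fun i hi => h1.supp i hi
  have s2 : ∀ i, m₂ i ≠ i → n < i := fun i hi => h4.supp i hi
  have s1' : ∀ i, 0 < i → i < n → 0 < m₁ i ∧ m₁ i < n := by
    intro i hi hin
    apply s1
    exact inv_ne h1.inv (h2 i ⟨hi, hin⟩)
  have s2' : ∀ i, n < i → n < m₂ i := by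
    intro i hi
    by_cases h : m₂ i = i
    · rw [h]; exact hi
    · exact s2 _ (inv_ne h4.inv h)
  let m : ℕ → ℕ := fun i => if i < n then m₁ i else m₂ i
  have e1 : ∀ i, i < n → m i = m₁ i := fun i h => if_pos h
  have e2 : ∀ i, ¬ i < n → m i = m₂ i := fun i h => if_neg h
  have m10 : m₁ 0 = 0 := by
    by_contra h
    exact absurd (s1 0 h).1 (lt_irrefl 0)
  have m2n : m₂ n = n := by
    by_contra h
    exact absurd (s2 n h) (lt_irrefl n)
  have mn : m n = n := by rw [e2 n (lt_irrefl n), m2n]
  have m0 : m 0 = 0 := by rw [e1 0 hn, m10]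
  have n1 : ∀ i, i < n → ∀ d, Near X m₁ i d → Near X m i d := by
    intro i hi d h
    unfold Near; rw [e1 i hi]; exact h
  have n2 : ∀ i, n < i → ∀ d, Near X m₂ i d → Near X m i d := by
    intro i hi d h
    unfold Near; rw [e2 i (by omega)]; exact h
  have hred : ∀ i, 0 < i → c i = true → X i - X 0 < r → Near X m i (X i - X 0) := by
    intro i hi hci hd
    rcases lt_trichotomy i n with h | h | h
    · exact n1 i h _ (h3 i ⟨hi, h⟩ hci).1
    · subst h; rw [hcn] at hci; exact absurd hci (by simp)
    · have hX0 := hX hn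
      exact (n2 i h _ (h5 i h hci (by linarith))).mono (by linarith)
  refine ⟨m, ⟨?_, ?_, ?_, ?_, ?_⟩, hred, mn, ?_⟩
  · intro i
    by_cases h : i < n
    · rw [e1 i h]
      by_cases h0 : i = 0
      · subst h0; rw [m10, e1 0 h, m10]
      · rw [e1 _ (s1' i (Nat.pos_of_ne_zero h0) h).2, h1.inv]
    · rw [e2 i h]
      by_cases h0 : i = n
      · subst h0; rw [m2n, e2 _ h, m2n]
      · have := s2' i (by omega)
        rw [e2 _ (by omega), h4.inv]
  · intro i hi
    apply Nat.pos_of_ne_zero
    rintro rfl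
    exact hi m0
  · intro i hi
    by_cases h : i < n
    · rw [e1 i h] at hi ⊢
      exact h1.compat i hi
    · rw [e2 i h] at hi ⊢
      exact h4.compat i hi
  · intro i hi
    by_cases h : i < n
    · rw [e1 i h] at hi ⊢
      obtain ⟨h6, h7⟩ := s1 i hi
      obtain ⟨h8, h9⟩ := s1' i h6 h7
      have a1 := hX h6
      have a2 := hX h7
      have a3 := hX h8
      have a4 := hX h9
      rw [abs_lt]
      constructor <;> linarith
    · rw [e2 i h] at hi ⊢
      exact h4.len i hi
  · intro i hi j hj hij hcc hd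
    -- reduce to `i < j`
    have main : ∀ i j, 0 < i → i < j → (c i = true ∨ c j = true) → |X i - X j| < r →
        Near X m i |X i - X j| ∨ Near X m j |X i - X j| := by
      intro i j hi hij hcc hd
      rw [abs_sub_of_lt hX hij] at hd ⊢
      rcases lt_trichotomy j n with h | h | h
      · have := h1.stab i ⟨hi, hij.trans h⟩ j ⟨hi.trans hij, h⟩ hij.ne hcc
        rw [abs_sub_of_lt hX hij] at this
        rcases this with h6 | h6
        · exact Or.inl (n1 i (hij.trans h) _ h6)
        · exact Or.inr (n1 j h _ h6)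
      · subst h
        have hci : c i = true := by
          rcases hcc with h6 | h6
          · exact h6
          · rw [hcn] at h6; exact absurd h6 (by simp)
        exact Or.inl (n1 i hij _ (h3 i ⟨hi, hij⟩ hci).2)
      · rcases lt_trichotomy i n with h' | h' | h'
        · by_cases hci : c i = true
          · have a1 := hX h
            exact Or.inl ((n1 i h' _ (h3 i ⟨hi, h'⟩ hci).2).mono (by linarith))
          · have hcj : c j = true := by
              rcases hcc with h6 | h6
              · exact absurd h6 hci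
              · exact h6
            have a1 := hX h'
            exact Or.inr ((n2 j h _ (h5 j h hcj (by linarith))).mono (by linarith))
        · subst h'
          have hcj : c j = true := by
            rcases hcc with h6 | h6
            · rw [hcn] at h6; exact absurd h6 (by simp)
            · exact h6
          exact Or.inr (n2 j h _ (h5 j h hcj hd))
        · have := h4.stab i h' j h hij.ne hcc (by rw [abs_sub_of_lt hX hij]; exact hd)
          rw [abs_sub_of_lt hX hij] at this
          rcases this with h6 | h6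
          · exact Or.inl (n2 i h' _ h6)
          · exact Or.inr (n2 j h _ h6)
    rcases lt_or_gt_of_ne hij with h | h
    · exact main i j hi h hcc hd
    · rw [abs_sub_comm] at hd ⊢
      exact (main j i hj h hcc.symm hd).symm
  · intro i hi hin
    rw [e1 i hin]
    exact h2 i ⟨hi, hin⟩

/-- The events in the renewal decomposition are disjoint. -/
lemma clean_disjoint (h : Cfg X) {n n' : ℕ} (hn : 0 < n) (hnn' : n < n')
    (hcn : c n = false) (hcn' : c n' = false) (h1 : Clean X c n) (h1' : Clean X c n') {r : ℝ}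
    (hr' : X n' - X 0 < r) (h2 : Alive X c n r) (h2' : Alive X c n' r) : False := by
  have hr : X n - X 0 < r := by
    have := h.mono hnn'
    linarith
  obtain ⟨m, hm, -, hmn, -⟩ := glue h.mono hn hcn h1 hr h2
  obtain ⟨m', hm', -, -, hm'n⟩ := glue h.mono (hn.trans hnn') hcn' h1' hr' h2'
  have := h.unique hm hm'
  rw [this] at hmn
  exact hm'n n hn hnn' hmn

lemma alive_of_clean (hX : StrictMono X) {n : ℕ} (hn : 0 < n) (hcn : c n = false)
    (hclean : Clean X c n) {r : ℝ} (hr : X n - X 0 < r) (hal : Alive X c n r) : Alive X c 0 r := by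
  obtain ⟨m, h1, h2, -⟩ := glue hX hn hcn hclean hr hal
  exact ⟨m, h1, h2⟩

/-- If the first gap is at least `r`, the wall survives to `r`. -/
lemma alive_of_gap (h : Cfg X) {r : ℝ} (hr : r ≤ X 1 - X 0) : Alive X c 0 r := by
  obtain ⟨m, hm⟩ := h.exists_stab c (Set.Ioi 0)
  refine ⟨_, hm.trunc r, ?_⟩
  intro i hi _ hd
  exfalso
  have : X 1 ≤ X i := h.mono.monotone hi
  linarith

/-- If the wall survives to every scale, there is a stable matching of the half-line in which
every red point is matched closer than the wall. -/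
lemma stab_of_alive (h : Cfg X) (hal : ∀ r : ℕ, Alive X c 0 r) :
    ∃ m, Stab X c (Set.Ioi 0) m ∧ ∀ i, 0 < i → c i = true → Near X m i (X i - X 0) := by
  obtain ⟨m, hm⟩ := h.exists_stab c (Set.Ioi 0)
  refine ⟨m, hm, ?_⟩
  intro i hi hci
  obtain ⟨r, hr⟩ := exists_nat_gt (X i - X 0)
  obtain ⟨m', h1, h2⟩ := hal r
  have heq := h.unique h1 (hm.trunc r)
  have h3 := h2 i hi hci hr
  rw [heq] at h3
  exact near_of_near_tr h3

end

end Pool.Agent.Lib_helper98.SM
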