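import Mathlib
import Pool.Agent.Lib_helper98.SM.Half

set_option autoImplicit false

open Set Filter Topology MeasureTheory

namespace Pool.Agent.Lib_helper98.SM

/-- A gap together with the colour of its far end point (`true` is red). -/
abbrev E := ℝ × Bool

/-- Position of the `n`-th point of the half-line; the wall is the point `0`. -/
noncomputable def Xs (z : ℕ → E) (n : ℕ) : ℝ := ∑ i ∈ Finset.range n, (z i).1

/-- Colour of the `n`-th point; the wall is blue. -/
def Cs (z : ℕ → E) : ℕ → Bool
  | 0 => false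
  | (k + 1) => (z k).2

lemma Xs_zero (z : ℕ → E) : Xs z 0 = 0 := by simp [Xs]

lemma Xs_succ (z : ℕ → E) (n : ℕ) : Xs z (n + 1) = Xs z n + (z n).1 := by
  simp [Xs, Finset.sum_range_succ]

/-- The shifted sequence. -/
def sh (n : ℕ) (z : ℕ → E) : ℕ → E := fun i => z (n + i)

lemma Xs_sh (z : ℕ → E) (n k : ℕ) : Xs (sh n z) k = Xs z (n + k) - Xs z n := by
  induction k with
  | zero => simp [Xs_zero]
  | succ k ih =>
    rw [Xs_succ, ih, ← Nat.add_assoc, Xs_succ]
    simp only [sh]
    ring

lemma Cs_sh (z : ℕ → E) (n k : ℕ) (hk : 0 < k) : Cs (sh n z) k = Cs z (n + k) := by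
  obtain ⟨j, rfl⟩ : ∃ j, k = j + 1 := ⟨k - 1, by omega⟩
  rfl

/-- Reindexing `Alive`. -/
lemma alive_shift {X X' : ℕ → ℝ} {c c' : ℕ → Bool} (k : ℕ)
    (hX : ∀ j, X' j = X (k + j) - X k) (hc : ∀ j, 0 < j → c' j = c (k + j)) (r : ℝ) :
    Alive X c k r ↔ Alive X' c' 0 r := by
  have hX0 : X' 0 = 0 := by rw [hX 0]; simp
  have hsub : ∀ i j, X' i - X' j = X (k + i) - X (k + j) := by
    intro i j; rw [hX, hX]; ring
  constructor
  · rintro ⟨m, hm, hm'⟩
    have hgt : ∀ j, 0 < j → k < m (k + j) := by
      intro j hj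
      by_cases h : m (k + j) = k + j
      · rw [h]; omega
      · exact hm.supp _ (inv_ne hm.inv h)
    let m' : ℕ → ℕ := fun j => if j = 0 then 0 else m (k + j) - k
    have e0 : m' 0 = 0 := rfl
    have e1 : ∀ j, 0 < j → k + m' j = m (k + j) := by
      intro j hj
      have := hgt j hj
      simp only [m', if_neg hj.ne']
      omega
    have e2 : ∀ j, 0 < j → 0 < m' j := by
      intro j hj
      have h1 := hgt j hj
      have h2 := e1 j hj
      omega
    have ene : ∀ j, m' j ≠ j → 0 < j ∧ m (k + j) ≠ k + j := by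
      intro j hj
      have hj0 : j ≠ 0 := by
        rintro rfl
        exact hj e0
      refine ⟨Nat.pos_of_ne_zero hj0, ?_⟩
      intro h
      have := e1 j (Nat.pos_of_ne_zero hj0)
      omega
    have enear : ∀ j, 0 < j → ∀ d, Near X m (k + j) d → Near X' m' j d := by
      intro j hj d h
      refine ⟨?_, ?_⟩
      · intro h2
        apply h.1
        rw [← e1 j hj, h2]
      · rw [hsub, e1 j hj]
        exact h.2
    refine ⟨m', ⟨?_, ?_, ?_, ?_, ?_⟩, ?_⟩
    · intro j
      by_cases hj : j = 0
      · subst hj; rw [e0, e0]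
      · have hj' := Nat.pos_of_ne_zero hj
        have h1 := e1 (m' j) (e2 j hj')
        rw [e1 j hj', hm.inv] at h1
        omega
    · intro j hj
      exact (ene j hj).1
    · intro j hj
      obtain ⟨h1, h2⟩ := ene j hj
      have := hm.compat _ h2
      rw [hc j h1, hc _ (e2 j h1), e1 j h1]
      exact this
    · intro j hj
      obtain ⟨h1, h2⟩ := ene j hj
      rw [hsub, e1 j h1]
      exact hm.len _ h2
    · intro i hi j hj hij hcc hd
      simp only [Set.mem_Ioi] at hi hj
      rw [hc i hi, hc j hj] at hcc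
      rw [hsub] at hd ⊢
      have := hm.stab (k + i) (by simp only [Set.mem_Ioi]; omega) (k + j)
        (by simp only [Set.mem_Ioi]; omega) (by omega) hcc hd
      rcases this with h | h
      · exact Or.inl (enear i hi _ h)
      · exact Or.inr (enear j hj _ h)
    · intro j hj hcj hd
      rw [hc j hj] at hcj
      have e3 : X' j - X' 0 = X (k + j) - X k := by rw [hsub]; simp
      rw [e3] at hd ⊢
      exact enear j hj _ (hm' (k + j) (by omega) hcj hd)
  · rintro ⟨m, hm, hm'⟩
    have m0 : m 0 = 0 := by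
      by_contra h
      exact absurd (hm.supp 0 h) (lt_irrefl 0)
    have hgt : ∀ j, 0 < j → 0 < m j := by
      intro j hj
      by_cases h : m j = j
      · rw [h]; omega
      · exact hm.supp _ (inv_ne hm.inv h)
    let m' : ℕ → ℕ := fun i => if i ≤ k then i else k + m (i - k)
    have e1 : ∀ j, 0 < j → m' (k + j) = k + m j := by
      intro j hj
      simp only [m']
      rw [if_neg (by omega)]
      congr 2
      omega
    have e0 : ∀ i, i ≤ k → m' i = i := fun i h => if_pos h
    have ene : ∀ i, m' i ≠ i → k < i := by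
      intro i hi
      by_contra h
      exact hi (e0 i (by omega))
    have ene2 : ∀ j, m' (k + j) ≠ k + j → 0 < j ∧ m j ≠ j := by
      intro j hj
      have h1 := ene _ hj
      refine ⟨by omega, ?_⟩
      intro h
      apply hj
      rw [e1 j (by omega), h]
    have enear : ∀ j, 0 < j → ∀ d, Near X' m j d → Near X m' (k + j) d := by
      intro j hj d h
      refine ⟨?_, ?_⟩
      · rw [e1 j hj]
        intro h2
        apply h.1
        omega
      · rw [e1 j hj, ← hsub]
        exact h.2
    have key : ∀ i, k < i → ∃ j, 0 < j ∧ i = k + j := fun i hi => ⟨i - k, by omega, by omega⟩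
    refine ⟨m', ⟨?_, ?_, ?_, ?_, ?_⟩, ?_⟩
    · intro i
      by_cases hi : i ≤ k
      · rw [e0 i hi, e0 i hi]
      · obtain ⟨j, hj, rfl⟩ := key i (by omega)
        rw [e1 j hj, e1 _ (hgt j hj), hm.inv]
    · intro i hi
      exact ene i hi
    · intro i hi
      obtain ⟨j, hj, rfl⟩ := key i (ene i hi)
      have h2 := (ene2 j hi).2
      have := hm.compat _ h2
      rw [e1 j hj]
      rwa [hc j hj, hc _ (hgt j hj)] at this
    · intro i hi
      obtain ⟨j, hj, rfl⟩ := key i (ene i hi)
      have h2 := (ene2 j hi).2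
      have := hm.len _ h2
      rw [e1 j hj, ← hsub]
      exact this
    · intro i hi i' hi' hij hcc hd
      obtain ⟨j, hj, rfl⟩ := key i hi
      obtain ⟨j', hj', rfl⟩ := key i' hi'
      rw [← hc j hj, ← hc j' hj'] at hcc
      rw [← hsub] at hd ⊢
      have := hm.stab j hj j' hj' (by omega) hcc hd
      rcases this with h | h
      · exact Or.inl (enear j hj _ h)
      · exact Or.inr (enear j' hj' _ h)
    · intro i hi hci hd
      obtain ⟨j, hj, rfl⟩ := key i hi
      rw [← hc j hj] at hci
      have e3 : X' j - X' 0 = X (k + j) - X k := by rw [hsub]; simp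
      rw [← e3] at hd ⊢
      exact enear j hj _ (hm' j hj hci hd)

lemma alive_sh (z : ℕ → E) (n : ℕ) (r : ℝ) :
    Alive (Xs z) (Cs z) n r ↔ Alive (Xs (sh n z)) (Cs (sh n z)) 0 r :=
  alive_shift n (fun j => Xs_sh z n j) (fun j hj => Cs_sh z n j hj) r

/-- Finite version of `Alive`. -/
def AliveFin (X : ℕ → ℝ) (c : ℕ → Bool) (r : ℝ) : Prop :=
  ∃ N : ℕ, r ≤ X (N + 1) - X N ∧ ∃ f : ℕ → ℕ, (∀ i, N < i → f i = i) ∧
    Trunc X c (Set.Ioc 0 N) r f ∧
    ∀ i, 0 < i → i ≤ N → c i = true → X i - X 0 < r → Near X f i (X i - X 0)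

lemma alive_iff_fin {X : ℕ → ℝ} {c : ℕ → Bool} (h : Cfg X) (r : ℝ) :
    Alive X c 0 r ↔ AliveFin X c r := by
  have hX := h.mono
  constructor
  · rintro ⟨m, hm, hm'⟩
    obtain ⟨N, -, hN⟩ := h.gaps r 0
    have hcross : ∀ i, i ≤ N → m i ≤ N := by
      intro i hi
      by_contra hcon
      push Not at hcon
      have hne : m i ≠ i := by omega
      have h1 := hm.len i hne
      rw [abs_sub_of_lt hX (by omega)] at h1
      have h2 : X (N + 1) ≤ X (m i) := hX.monotone hcon
      have h3 : X i ≤ X N := hX.monotone hi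
      linarith
    refine ⟨N, hN, fun i => if i ≤ N then m i else i, fun i hi => if_neg (by omega),
      ⟨?_, ?_, ?_, ?_, ?_⟩, ?_⟩
    · intro i
      by_cases hi : i ≤ N
      · simp only [if_pos hi, if_pos (hcross i hi), hm.inv]
      · simp only [if_neg hi]
    · intro i hi
      by_cases hiN : i ≤ N
      · simp only [if_pos hiN] at hi
        exact ⟨hm.supp i hi, hiN⟩
      · simp only [if_neg hiN] at hi
        exact absurd rfl hi
    · intro i hi
      by_cases hiN : i ≤ N
      · simp only [if_pos hiN] at hi ⊢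
        exact hm.compat i hi
      · simp only [if_neg hiN] at hi
        exact absurd rfl hi
    · intro i hi
      by_cases hiN : i ≤ N
      · simp only [if_pos hiN] at hi ⊢
        exact hm.len i hi
      · simp only [if_neg hiN] at hi
        exact absurd rfl hi
    · intro i hi j hj hij hcc hd
      rcases hm.stab i hi.1 j hj.1 hij hcc hd with h1 | h1
      · left; unfold Near; simp only [if_pos hi.2]; exact h1
      · right; unfold Near; simp only [if_pos hj.2]; exact h1
    · intro i hi hiN hci hd
      unfold Near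
      simp only [if_pos hiN]
      exact hm' i hi hci hd
  · rintro ⟨N, hN, f, hf, hT, hf'⟩
    obtain ⟨g, hg⟩ := h.exists_stab c (Set.Ioi N)
    have hg' := hg.trunc r
    set g' := tr X r g
    have s2 : ∀ i, g' i ≠ i → N < i := fun i hi => hg'.supp i hi
    have s2' : ∀ i, N < i → N < g' i := by
      intro i hi
      by_cases h : g' i = i
      · rw [h]; exact hi
      · exact s2 _ (inv_ne hg'.inv h)
    have s1' : ∀ i, i ≤ N → f i ≤ N := by
      intro i hi
      by_contra hcon
      push Not at hcon
      have h1 := hf _ hcon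
      rw [hT.inv] at h1
      omega
    let m : ℕ → ℕ := fun i => if i ≤ N then f i else g' i
    have e1 : ∀ i, i ≤ N → m i = f i := fun i h => if_pos h
    have e2 : ∀ i, ¬ i ≤ N → m i = g' i := fun i h => if_neg h
    refine ⟨m, ⟨?_, ?_, ?_, ?_, ?_⟩, ?_⟩
    · intro i
      by_cases hi : i ≤ N
      · rw [e1 i hi, e1 _ (s1' i hi), hT.inv]
      · have := s2' i (by omega)
        rw [e2 i hi, e2 _ (by omega), hg'.inv]
    · intro i hi
      by_cases hiN : i ≤ N
      · rw [e1 i hiN] at hi
        exact (hT.supp i hi).1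
      · simp only [Set.mem_Ioi]; omega
    · intro i hi
      by_cases hiN : i ≤ N
      · rw [e1 i hiN] at hi ⊢
        exact hT.compat i hi
      · rw [e2 i hiN] at hi ⊢
        exact hg'.compat i hi
    · intro i hi
      by_cases hiN : i ≤ N
      · rw [e1 i hiN] at hi ⊢
        exact hT.len i hi
      · rw [e2 i hiN] at hi ⊢
        exact hg'.len i hi
    · intro i hi j hj hij hcc hd
      have hfar : ∀ a b, a ≤ N → N < b → r ≤ |X a - X b| := by
        intro a b ha hb
        have h1 : X (N + 1) ≤ X b := hX.monotone hb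
        have h2 : X a ≤ X N := hX.monotone ha
        rw [abs_sub_of_lt hX (by omega)]
        linarith
      simp only [Set.mem_Ioi] at hi hj
      by_cases hiN : i ≤ N <;> by_cases hjN : j ≤ N
      · rcases hT.stab i ⟨hi, hiN⟩ j ⟨hj, hjN⟩ hij hcc hd with h1 | h1
        · left; unfold Near; rw [e1 i hiN]; exact h1
        · right; unfold Near; rw [e1 j hjN]; exact h1
      · exact absurd hd (not_lt.2 (hfar i j hiN (by omega)))
      · rw [abs_sub_comm] at hd
        exact absurd hd (not_lt.2 (hfar j i hjN (by omega)))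
      · rcases hg'.stab i (by simp only [Set.mem_Ioi]; omega) j (by simp only [Set.mem_Ioi]; omega)
          hij hcc hd with h1 | h1
        · left; unfold Near; rw [e2 i hiN]; exact h1
        · right; unfold Near; rw [e2 j hjN]; exact h1
    · intro i hi hci hd
      by_cases hiN : i ≤ N
      · unfold Near
        rw [e1 i hiN]
        exact hf' i hi hiN hci hd
      · exfalso
        have h1 : X (N + 1) ≤ X i := hX.monotone (by omega)
        have h2 : X 0 ≤ X N := hX.monotone (Nat.zero_le _)
        linarith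

/-! ### Measurability -/

lemma measurable_Xs (n : ℕ) : Measurable fun z : ℕ → E => Xs z n := by
  unfold Xs
  exact Finset.measurable_fun_sum _ fun i _ => measurable_fst.comp (measurable_pi_apply i)

lemma measurable_Cs (n : ℕ) : Measurable fun z : ℕ → E => Cs z n := by
  cases n with
  | zero => exact measurable_const
  | succ k => exact measurable_snd.comp (measurable_pi_apply k)

lemma measurable_Cs_eq (n : ℕ) : Measurable fun z : ℕ → E => Cs z n = true := by
  rw [← measurableSet_setOfPred]
  exact (measurable_Cs n) (measurableSet_singleton true)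

lemma measurable_le_prop {f g : (ℕ → E) → ℝ} (hf : Measurable f) (hg : Measurable g) :
    Measurable fun z => f z ≤ g z := by
  rw [← measurableSet_setOfPred]; exact measurableSet_le hf hg

lemma measurable_lt_prop {f g : (ℕ → E) → ℝ} (hf : Measurable f) (hg : Measurable g) :
    Measurable fun z => f z < g z := by
  rw [← measurableSet_setOfPred]; exact measurableSet_lt hf hg

lemma measurable_Near (f : ℕ → ℕ) (i : ℕ) {d : (ℕ → E) → ℝ} (hd : Measurable d) :
    Measurable fun z => Near (Xs z) f i (d z) := by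
  unfold Near
  exact measurable_const.and (measurable_le_prop
    ((measurable_Xs i).sub (measurable_Xs (f i))).abs hd)

lemma measurable_dist (i j : ℕ) : Measurable fun z : ℕ → E => |Xs z i - Xs z j| :=
  ((measurable_Xs i).sub (measurable_Xs j)).abs

lemma trunc_iff (X : ℕ → ℝ) (c : ℕ → Bool) (I : Set ℕ) (r : ℝ) (f : ℕ → ℕ) :
    Trunc X c I r f ↔ ((∀ i, f (f i) = i) ∧ (∀ i, f i ≠ i → i ∈ I) ∧
      (∀ i, f i ≠ i → c i = true ∨ c (f i) = true) ∧ (∀ i, f i ≠ i → |X i - X (f i)| < r) ∧
      ∀ i, i ∈ I → ∀ j, j ∈ I → i ≠ j → (c i = true ∨ c j = true) → |X i - X j| < r →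
        Near X f i |X i - X j| ∨ Near X f j |X i - X j|) :=
  ⟨fun h => ⟨h.inv, h.supp, h.compat, h.len, fun i hi j hj => h.stab i hi j hj⟩,
    fun h => ⟨h.1, h.2.1, h.2.2.1, h.2.2.2.1, fun i hi j hj => h.2.2.2.2 i hi j hj⟩⟩

lemma stab_iff (X : ℕ → ℝ) (c : ℕ → Bool) (I : Set ℕ) (f : ℕ → ℕ) :
    Stab X c I f ↔ ((∀ i, f (f i) = i) ∧ (∀ i, f i ≠ i → i ∈ I) ∧
      (∀ i, f i ≠ i → c i = true ∨ c (f i) = true) ∧
      ∀ i, i ∈ I → ∀ j, j ∈ I → i ≠ j → (c i = true ∨ c j = true) →
        Near X f i |X i - X j| ∨ Near X f j |X i - X j|) :=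
  ⟨fun h => ⟨h.inv, h.supp, h.compat, fun i hi j hj => h.stab i hi j hj⟩,
    fun h => ⟨h.1, h.2.1, h.2.2.1, fun i hi j hj => h.2.2.2 i hi j hj⟩⟩

lemma measurable_Trunc (I : Set ℕ) (r : ℝ) (f : ℕ → ℕ) :
    Measurable fun z : ℕ → E => Trunc (Xs z) (Cs z) I r f := by
  simp only [trunc_iff]
  refine measurable_const.and (measurable_const.and (Measurable.and ?_ (Measurable.and ?_ ?_)))
  · exact Measurable.forall fun i => measurable_const.imp
      ((measurable_Cs_eq i).or (measurable_Cs_eq (f i)))
  · exact Measurable.forall fun i => measurable_const.imp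
      (measurable_lt_prop (measurable_dist i (f i)) measurable_const)
  · refine Measurable.forall fun i => measurable_const.imp (Measurable.forall fun j =>
      measurable_const.imp (measurable_const.imp (Measurable.imp ?_ (Measurable.imp ?_ ?_))))
    · exact (measurable_Cs_eq i).or (measurable_Cs_eq j)
    · exact measurable_lt_prop (measurable_dist i j) measurable_const
    · exact (measurable_Near f i (measurable_dist i j)).or (measurable_Near f j (measurable_dist i j))

lemma measurable_Stab (I : Set ℕ) (f : ℕ → ℕ) :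
    Measurable fun z : ℕ → E => Stab (Xs z) (Cs z) I f := by
  simp only [stab_iff]
  refine measurable_const.and (measurable_const.and (Measurable.and ?_ ?_))
  · exact Measurable.forall fun i => measurable_const.imp
      ((measurable_Cs_eq i).or (measurable_Cs_eq (f i)))
  · refine Measurable.forall fun i => measurable_const.imp (Measurable.forall fun j =>
      measurable_const.imp (measurable_const.imp (Measurable.imp ?_ ?_)))
    · exact (measurable_Cs_eq i).or (measurable_Cs_eq j)
    · exact (measurable_Near f i (measurable_dist i j)).or (measurable_Near f j (measurable_dist i j))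

/-- Functions which are the identity beyond `N`. -/
def FN (N : ℕ) : Set (ℕ → ℕ) := {f | ∀ i, N < i → f i = i}

lemma countable_FN (N : ℕ) : (FN N).Countable := by
  let φ : (ℕ → ℕ) → (Fin (N + 1) → ℕ) := fun f i => f i
  have hinj : Set.InjOn φ (FN N) := by
    intro f hf g hg h
    ext i
    by_cases hi : N < i
    · rw [hf i hi, hg i hi]
    · exact congrFun h ⟨i, by omega⟩
  exact Set.countable_of_injective_of_countable_image hinj (Set.to_countable _)

instance (N : ℕ) : Countable (FN N) := (countable_FN N).to_subtype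

lemma measurable_AliveFin (r : ℝ) :
    Measurable fun z : ℕ → E => AliveFin (Xs z) (Cs z) r := by
  have : (fun z : ℕ → E => AliveFin (Xs z) (Cs z) r) = fun z =>
      ∃ N : ℕ, r ≤ Xs z (N + 1) - Xs z N ∧ ∃ f : FN N,
        Trunc (Xs z) (Cs z) (Set.Ioc 0 N) r f ∧
        ∀ i, 0 < i → i ≤ N → Cs z i = true → Xs z i - Xs z 0 < r →
          Near (Xs z) f i (Xs z i - Xs z 0) := by
    ext z
    constructor
    · rintro ⟨N, hN, f, hf, h1, h2⟩
      exact ⟨N, hN, ⟨f, hf⟩, h1, h2⟩
    · rintro ⟨N, hN, ⟨f, hf⟩, h1, h2⟩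
      exact ⟨N, hN, f, hf, h1, h2⟩
  rw [this]
  refine Measurable.exists fun N => Measurable.and ?_ (Measurable.exists fun f => Measurable.and ?_ ?_)
  · exact measurable_le_prop measurable_const ((measurable_Xs _).sub (measurable_Xs _))
  · exact measurable_Trunc _ _ _
  · refine Measurable.forall fun i => measurable_const.imp (measurable_const.imp
      (Measurable.imp (measurable_Cs_eq i) (Measurable.imp ?_ ?_)))
    · exact measurable_lt_prop ((measurable_Xs _).sub (measurable_Xs _)) measurable_const
    · exact measurable_Near _ _ ((measurable_Xs _).sub (measurable_Xs _))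

lemma measurable_Clean (n : ℕ) :
    Measurable fun z : ℕ → E => Clean (Xs z) (Cs z) n := by
  have : (fun z : ℕ → E => Clean (Xs z) (Cs z) n) = fun z =>
      ∃ m : FN n, Stab (Xs z) (Cs z) (Set.Ioo 0 n) m ∧ (∀ i, i ∈ Set.Ioo 0 n → (m : ℕ → ℕ) i ≠ i) ∧
    ∀ i, i ∈ Set.Ioo 0 n → Cs z i = true → Near (Xs z) m i (Xs z i - Xs z 0) ∧
      Near (Xs z) m i (Xs z n - Xs z i) := by
    ext z
    constructor
    · rintro ⟨m, h1, h2, h3⟩
      refine ⟨⟨m, ?_⟩, h1, h2, h3⟩
      intro i hi
      by_contra hne
      have := (h1.supp i hne).2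
      omega
    · rintro ⟨⟨m, hm⟩, h1, h2, h3⟩
      exact ⟨m, h1, h2, h3⟩
  rw [this]
  refine Measurable.exists fun m => Measurable.and (measurable_Stab _ _)
    (Measurable.and measurable_const (Measurable.forall fun i => measurable_const.imp
      (Measurable.imp (measurable_Cs_eq i) (Measurable.and ?_ ?_))))
  · exact measurable_Near _ _ ((measurable_Xs _).sub (measurable_Xs _))
  · exact measurable_Near _ _ ((measurable_Xs _).sub (measurable_Xs _))

/-- `Clean` depends only on the first coordinates. -/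
lemma clean_congr {z z' : ℕ → E} {n : ℕ} (h1 : ∀ i, i < n → (z i).1 = (z' i).1)
    (h2 : ∀ i, i + 1 < n → (z i).2 = (z' i).2) :
    Clean (Xs z) (Cs z) n ↔ Clean (Xs z') (Cs z') n := by
  have hX : ∀ i, i ≤ n → Xs z i = Xs z' i := by
    intro i hi
    unfold Xs
    apply Finset.sum_congr rfl
    intro j hj
    exact h1 j (by have := Finset.mem_range.1 hj; omega)
  have hC : ∀ i, i < n → Cs z i = Cs z' i := by
    intro i hi
    cases i with
    | zero => rfl
    | succ k => exact h2 k hi
  -- one direction suffices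
  have main : ∀ (X X' : ℕ → ℝ) (c c' : ℕ → Bool), (∀ i, i ≤ n → X i = X' i) →
      (∀ i, i < n → c i = c' i) → Clean X c n → Clean X' c' n := by
    intro X X' c c' hX hC
    rintro ⟨m, hm, hm1, hm2⟩
    have hmem : ∀ i ∈ Set.Ioo 0 n, m i ∈ Set.Ioo 0 n := fun i hi =>
      hm.supp _ (inv_ne hm.inv (hm1 i hi))
    have hnear : ∀ i ∈ Set.Ioo 0 n, ∀ d, Near X m i d → Near X' m i d := by
      intro i hi d h
      have h3 := hmem i hi
      exact ⟨h.1, by rw [← hX i hi.2.le, ← hX _ h3.2.le]; exact h.2⟩
    refine ⟨m, ⟨hm.inv, hm.supp, ?_, ?_⟩, hm1, ?_⟩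
    · intro i hi
      have h3 := hm.supp i hi
      rw [← hC i h3.2, ← hC _ (hmem i h3).2]
      exact hm.compat i hi
    · intro i hi j hj hij hcc
      rw [← hC i hi.2, ← hC j hj.2] at hcc
      rw [← hX i hi.2.le, ← hX j hj.2.le]
      rcases hm.stab i hi j hj hij hcc with h | h
      · exact Or.inl (hnear i hi _ h)
      · exact Or.inr (hnear j hj _ h)
    · intro i hi hci
      rw [← hC i hi.2] at hci
      obtain ⟨h3, h4⟩ := hm2 i hi hci
      have hn0 : 0 ≤ n := Nat.zero_le n
      rw [← hX i hi.2.le, ← hX 0 hn0, ← hX n le_rfl]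
      exact ⟨hnear i hi _ h3, hnear i hi _ h4⟩
  exact ⟨main _ _ _ _ hX hC, main _ _ _ _ (fun i hi => (hX i hi).symm) (fun i hi => (hC i hi).symm)⟩

end Pool.Agent.Lib_helper98.SM
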