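import Mathlib
import Pool.Agent.Lib_helper98.SM.Seq
import Pool.Agent.Lib_helper98.SM.Prod

set_option autoImplicit false

open Set Filter Topology MeasureTheory
open scoped ENNReal

namespace Pool.Agent.Lib_helper98.SM

/-- Assumptions on the law of a gap. -/
structure GapLaw (γ : Measure ℝ) : Prop where
  prob : IsProbabilityMeasure γ
  atoms : NullSingletonClass γ
  pos : γ (Iic 0) = 0
  unb : ∀ r : ℝ, γ (Iio r) < 1

variable {γ : Measure ℝ} {β : Measure Bool} [IsProbabilityMeasure γ] [IsProbabilityMeasure β]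

lemma iid_eval (k : ℕ) {S : Set E} (hS : MeasurableSet S) :
    iid ℕ (γ.prod β) {z | z k ∈ S} = (γ.prod β) S := by
  have := (measurePreserving_eval_infinitePi (fun _ : ℕ => γ.prod β) k).measure_preimage
    hS.nullMeasurableSet
  exact this

lemma iid_eval_prod (k : ℕ) {G : Set ℝ} {T : Set Bool} (hG : MeasurableSet G) :
    iid ℕ (γ.prod β) {z | (z k).1 ∈ G ∧ (z k).2 ∈ T} = γ G * β T := by
  have hT : MeasurableSet T := MeasurableSet.of_discrete
  have : {z : ℕ → E | (z k).1 ∈ G ∧ (z k).2 ∈ T} = {z | z k ∈ G ×ˢ T} := by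
    ext z; simp [Set.mem_prod]
  rw [this, iid_eval k (hG.prod hT), Measure.prod_prod]

lemma iid_eval_fst (k : ℕ) {G : Set ℝ} (hG : MeasurableSet G) :
    iid ℕ (γ.prod β) {z | (z k).1 ∈ G} = γ G := by
  have := iid_eval_prod (γ := γ) (β := β) k (T := univ) hG
  simp only [Set.mem_univ, and_true, measure_univ, mul_one] at this
  exact this

lemma ae_pos (h : GapLaw γ) : ∀ᵐ z ∂(iid ℕ (γ.prod β)), ∀ i, 0 < (z i).1 := by
  rw [ae_all_iff]
  intro i
  have h1 : iid ℕ (γ.prod β) {z | (z i).1 ∈ Iic (0 : ℝ)} = 0 := by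
    rw [iid_eval_fst i measurableSet_Iic, h.pos]
  rw [ae_iff]
  convert h1 using 2
  ext z
  simp

lemma ae_gaps (h : GapLaw γ) : ∀ᵐ z ∂(iid ℕ (γ.prod β)), ∀ (r N : ℕ), ∃ n, N ≤ n ∧ (r : ℝ) ≤ (z n).1 := by
  rw [ae_all_iff]
  intro r
  rw [ae_all_iff]
  intro N
  rw [ae_iff]
  have hle : ∀ k : ℕ, iid ℕ (γ.prod β) {z | ¬ ∃ n, N ≤ n ∧ (r : ℝ) ≤ (z n).1} ≤ (γ (Iio (r : ℝ))) ^ k := by
    intro k
    have h1 : iid ℕ (γ.prod β) (Set.pi (Finset.Ico N (N + k)) fun _ => Iio (r : ℝ) ×ˢ univ) =
        (γ (Iio (r : ℝ))) ^ k := by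
      rw [Measure.infinitePi_pi _ (fun i _ => measurableSet_Iio.prod MeasurableSet.univ)]
      simp only [Measure.prod_prod, measure_univ, mul_one, Finset.prod_const, Nat.card_Ico,
        Nat.add_sub_cancel_left]
    rw [← h1]
    apply measure_mono
    intro z hz
    simp only [Set.mem_ofPred_eq, not_exists, not_and, not_le] at hz
    intro n hn
    simp only [Finset.coe_Ico, Set.mem_Ico] at hn
    exact ⟨hz n hn.1, Set.mem_univ _⟩
  have hlim := ENNReal.tendsto_pow_atTop_nhds_zero_of_lt_one (h.unb (r : ℝ))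
  exact le_antisymm (ge_of_tendsto' hlim hle) zero_le

lemma ae_noties_aux (h : GapLaw γ) (j i k : ℕ) (hik : i ≤ k) (hji : j ≤ i) :
    ∀ᵐ z ∂(iid ℕ (γ.prod β)), Xs z i - Xs z j ≠ Xs z (k + 1) - Xs z i := by
  have := h.atoms
  set ν := γ.prod β
  let S : Set ℕ := {l | l < k}
  have hdep : ∀ (q : (ℕ → E) × (ℕ → E)) (l : ℕ), l ≤ k → Xs (glueF S q) l = Xs q.1 l := by
    intro q l hl
    unfold Xs
    apply Finset.sum_congr rfl
    intro a ha
    have : a ∈ S := by
      have := Finset.mem_range.1 ha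
      simp only [S, Set.mem_ofPred_eq]; omega
    simp [glueF, this]
  have hk : ∀ (q : (ℕ → E) × (ℕ → E)), glueF S q k = q.2 k := by
    intro q
    have : k ∉ S := by simp [S]
    simp [glueF, this]
  rw [ae_iff]
  have hmeas : MeasurableSet {z : ℕ → E | ¬ (Xs z i - Xs z j ≠ Xs z (k + 1) - Xs z i)} := by
    simp only [ne_eq, not_not]
    exact measurableSet_eq_fun ((measurable_Xs i).sub (measurable_Xs j))
      ((measurable_Xs (k + 1)).sub (measurable_Xs i))
  rw [← glue_map ν S, Measure.map_apply (measurable_glueF S) hmeas,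
    Measure.measure_prod_null ((measurable_glueF S) hmeas)]
  refine Filter.Eventually.of_forall fun w => ?_
  simp only [Pi.zero_apply]
  have hsub : (Prod.mk w ⁻¹' ((glueF S) ⁻¹' {z : ℕ → E | ¬ (Xs z i - Xs z j ≠ Xs z (k + 1) - Xs z i)}))
      ⊆ {y | (y k).1 ∈ ({2 * Xs w i - Xs w j - Xs w k} : Set ℝ)} := by
    intro y hy
    simp only [Set.mem_preimage, Set.mem_ofPred_eq, ne_eq, not_not] at hy
    rw [Xs_succ, hdep _ i hik, hdep _ j (hji.trans hik), hdep _ k le_rfl, hk] at hy
    simp only [Set.mem_ofPred_eq, Set.mem_singleton_iff]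
    simp only at hy
    linarith
  refine measure_mono_null hsub ?_
  rw [iid_eval_fst k (measurableSet_singleton _)]
  exact measure_singleton _

lemma ae_cfg (h : GapLaw γ) : ∀ᵐ z ∂(iid ℕ (γ.prod β)), Cfg (Xs z) := by
  have h3 : ∀ᵐ z ∂(iid ℕ (γ.prod β)), ∀ j i k : ℕ, i ≤ k → j ≤ i →
      Xs z i - Xs z j ≠ Xs z (k + 1) - Xs z i := by
    rw [ae_all_iff]; intro j
    rw [ae_all_iff]; intro i
    rw [ae_all_iff]; intro k
    by_cases h1 : i ≤ k
    · by_cases h2 : j ≤ i
      · filter_upwards [ae_noties_aux (β := β) h j i k h1 h2] with z hz _ _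
        exact hz
      · exact Filter.Eventually.of_forall fun z _ h4 => absurd h4 h2
    · exact Filter.Eventually.of_forall fun z h4 => absurd h4 h1
  filter_upwards [ae_pos (β := β) h, ae_gaps (β := β) h, h3] with z h1 h2 h3
  have hmono : StrictMono (Xs z) := strictMono_nat_of_lt_succ fun n => by
    rw [Xs_succ]; linarith [h1 n]
  refine ⟨hmono, ?_, ?_⟩
  · have key : ∀ i j k, j < i → i < k → |Xs z i - Xs z j| ≠ |Xs z i - Xs z k| := by
      intro i j k hji hik
      rw [abs_sub_of_lt hmono hik, abs_sub_comm, abs_sub_of_lt hmono hji]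
      obtain ⟨k', rfl⟩ : ∃ k', k = k' + 1 := ⟨k - 1, by omega⟩
      exact h3 j i k' (by omega) hji.le
    intro i j k hij hik hjk
    rcases lt_or_gt_of_ne hij with h4 | h4 <;> rcases lt_or_gt_of_ne hik with h5 | h5
    · rw [abs_sub_of_lt hmono h4, abs_sub_of_lt hmono h5]
      intro h6
      exact hjk (hmono.injective (by linarith))
    · exact (key i k j h5 h4).symm
    · exact key i j k h4 h5
    · rw [abs_sub_comm, abs_sub_of_lt hmono h4, abs_sub_comm (Xs z i), abs_sub_of_lt hmono h5]
      intro h6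
      exact hjk (hmono.injective (by linarith))
  · intro r N
    obtain ⟨r', hr'⟩ := exists_nat_ge r
    obtain ⟨n, hn, hn'⟩ := h2 r' N
    refine ⟨n, hn, ?_⟩
    rw [Xs_succ]
    linarith

lemma cfg_sh {z : ℕ → E} (h : Cfg (Xs z)) (n : ℕ) : Cfg (Xs (sh n z)) := by
  refine ⟨?_, ?_, ?_⟩
  · intro a b hab
    rw [Xs_sh, Xs_sh]
    have := h.mono (show n + a < n + b by omega)
    linarith
  · intro i j k hij hik hjk
    rw [Xs_sh, Xs_sh, Xs_sh]
    have := h.noties (n + i) (n + j) (n + k) (by omega) (by omega) (by omega)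
    have e : ∀ a b, Xs z (n + a) - Xs z n - (Xs z (n + b) - Xs z n) =
      Xs z (n + a) - Xs z (n + b) := fun a b => by ring
    rw [e, e]
    exact this
  · intro r N
    obtain ⟨a, ha, ha'⟩ := h.gaps r (n + N)
    refine ⟨a - n, by omega, ?_⟩
    rw [Xs_sh, Xs_sh]
    have e1 : n + (a - n + 1) = a + 1 := by omega
    have e2 : n + (a - n) = a := by omega
    rw [e1, e2]
    linarith

/-- The event that the wall survives to `r`. -/
def AA (r : ℝ) : Set (ℕ → E) := {z | AliveFin (Xs z) (Cs z) r}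

lemma measurableSet_AA (r : ℝ) : MeasurableSet (AA r) :=
  measurableSet_setOfPred.2 (measurable_AliveFin r)

/-- The event that `(0, n)` is clean and the `n`-th point is in `I`. -/
def DD (n : ℕ) (I : Set ℝ) : Set (ℕ → E) := {z | Clean (Xs z) (Cs z) n ∧ Xs z n ∈ I}

lemma measurableSet_DD (n : ℕ) {I : Set ℝ} (hI : MeasurableSet I) : MeasurableSet (DD n I) :=
  (measurableSet_setOfPred.2 (measurable_Clean n)).inter (measurable_Xs n hI)

lemma DD_congr {z z' : ℕ → E} {n : ℕ} {I : Set ℝ} (h1 : ∀ i, i < n → (z i).1 = (z' i).1)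
    (h2 : ∀ i, i + 1 < n → (z i).2 = (z' i).2) (h : z ∈ DD n I) : z' ∈ DD n I := by
  refine ⟨(clean_congr h1 h2).1 h.1, ?_⟩
  have : Xs z n = Xs z' n := by
    unfold Xs
    exact Finset.sum_congr rfl fun j hj => h1 j (Finset.mem_range.1 hj)
  rw [← this]
  exact h.2

lemma measurable_sh (n : ℕ) : Measurable (sh n) :=
  measurable_pi_iff.2 fun _ => measurable_pi_apply _

/-- The colour of the `n`-th point is independent of `DD n I`. -/
lemma color_indep (n : ℕ) {I : Set ℝ} (hI : MeasurableSet I) (T : Set Bool) :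
    iid ℕ (γ.prod β) (DD (n + 1) I ∩ {z | (z n).2 ∈ T}) = iid ℕ (γ.prod β) (DD (n + 1) I) * β T := by
  classical
  have hT : MeasurableSet T := MeasurableSet.of_discrete
  set ν := γ.prod β with hν
  let S : Set ℕ := {n}
  have hD := measurableSet_DD (n + 1) hI
  have hC : MeasurableSet {z : ℕ → E | (z n).2 ∈ T} :=
    (measurable_snd.comp (measurable_pi_apply n)) hT
  have main : ∀ U : Set Bool, iid ℕ ν (DD (n + 1) I ∩ {z | (z n).2 ∈ U}) =
      ∫⁻ y, γ {g | Function.update y n (g, false) ∈ DD (n + 1) I} * β U ∂(iid ℕ ν) := by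
    intro U
    have hU : MeasurableSet U := MeasurableSet.of_discrete
    have hCU : MeasurableSet {z : ℕ → E | (z n).2 ∈ U} :=
      (measurable_snd.comp (measurable_pi_apply n)) hU
    conv_lhs => rw [← glue_map ν S]
    rw [Measure.map_apply (measurable_glueF S) (hD.inter hCU),
      Measure.prod_apply_symm ((measurable_glueF S) (hD.inter hCU))]
    apply lintegral_congr
    intro y
    have hmeasG : MeasurableSet {g : ℝ | Function.update y n (g, false) ∈ DD (n + 1) I} := by
      have : Measurable fun g : ℝ => Function.update y n ((g, false) : E) :=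
        (measurable_update y).comp (measurable_id.prodMk measurable_const)
      exact this hD
    have hset : ((fun x => (x, y)) ⁻¹' ((glueF S) ⁻¹' (DD (n + 1) I ∩ {z | (z n).2 ∈ U}))) =
        {w : ℕ → E | (w n).1 ∈ {g : ℝ | Function.update y n (g, false) ∈ DD (n + 1) I} ∧
          (w n).2 ∈ U} := by
      ext w
      simp only [Set.mem_preimage, Set.mem_inter_iff, Set.mem_ofPred_eq]
      have hgn : glueF S (w, y) n = w n := by simp [glueF, S]
      have hgo : ∀ i, i ≠ n → glueF S (w, y) i = y i := by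
        intro i hi
        simp [glueF, S, hi]
      rw [hgn]
      have hiff : glueF S (w, y) ∈ DD (n + 1) I ↔
          Function.update y n ((w n).1, false) ∈ DD (n + 1) I := by
        constructor
        · intro h
          refine DD_congr ?_ ?_ h
          · intro i _
            by_cases hi : i = n
            · subst hi; rw [hgn, Function.update_self]
            · rw [hgo i hi, Function.update_of_ne hi]
          · intro i hi
            have hi' : i ≠ n := by omega
            rw [hgo i hi', Function.update_of_ne hi']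
        · intro h
          refine DD_congr ?_ ?_ h
          · intro i _
            by_cases hi : i = n
            · subst hi; rw [hgn, Function.update_self]
            · rw [hgo i hi, Function.update_of_ne hi]
          · intro i hi
            have hi' : i ≠ n := by omega
            rw [hgo i hi', Function.update_of_ne hi']
      rw [hiff]
    rw [hset, iid_eval_prod n hmeasG]
  have h1 := main T
  have h2 := main univ
  simp only [Set.mem_univ, measure_univ, mul_one] at h2
  have e : DD (n + 1) I ∩ {z : ℕ → E | True} = DD (n + 1) I := by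
    ext z; simp
  rw [e] at h2
  rw [h1, h2]
  have hmeas : Measurable fun y : ℕ → E => γ {g | Function.update y n ((g, false) : E) ∈ DD (n + 1) I} := by
    have hj : Measurable fun q : (ℕ → E) × ℝ => Function.update q.1 n ((q.2, false) : E) := by
      rw [measurable_pi_iff]
      intro i
      by_cases hi : i = n
      · subst hi
        simp only [Function.update_self]
        exact measurable_snd.prodMk measurable_const
      · simp only [Function.update_of_ne hi]
        exact (measurable_pi_apply i).comp measurable_fst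
    have := measurable_measure_prodMk_left (ν := γ) (hj hD)
    exact this
  rw [lintegral_mul_const _ hmeas]

/-- Renewal factorisation. -/
lemma factor (n : ℕ) {I : Set ℝ} (hI : MeasurableSet I) (T : Set Bool) (r : ℝ) :
    iid ℕ (γ.prod β) (DD (n + 1) I ∩ {z | (z n).2 ∈ T} ∩ (sh (n + 1)) ⁻¹' (AA r)) =
      iid ℕ (γ.prod β) (DD (n + 1) I) * β T * iid ℕ (γ.prod β) (AA r) := by
  have hT : MeasurableSet T := MeasurableSet.of_discrete
  have hD := measurableSet_DD (n + 1) hI
  have hC : MeasurableSet {z : ℕ → E | (z n).2 ∈ T} :=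
    (measurable_snd.comp (measurable_pi_apply n)) hT
  rw [indep_of_dep (γ.prod β) {i : ℕ | i < n + 1} (hD.inter hC)
    ((measurable_sh (n + 1)) (measurableSet_AA r)), color_indep n hI T]
  · congr 1
    have hinj : Function.Injective fun i : ℕ => n + 1 + i := fun a b h => by
      simp only at h; omega
    have hmap : (iid ℕ (γ.prod β)).map (sh (n + 1)) = iid ℕ (γ.prod β) :=
      reindex_map (γ.prod β) (fun i : ℕ => n + 1 + i) hinj
    rw [← Measure.map_apply (measurable_sh (n + 1)) (measurableSet_AA r), hmap]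
  · rintro z z' hzz' ⟨h1, h2⟩
    refine ⟨DD_congr (fun i hi => ?_) (fun i hi => ?_) h1, ?_⟩
    · rw [hzz' i hi]
    · rw [hzz' i (by simp only [Set.mem_ofPred_eq]; omega)]
    · simp only [Set.mem_ofPred_eq] at h2 ⊢
      rw [← hzz' n (by simp)]
      exact h2
  · intro z z' hzz' h
    have : sh (n + 1) z = sh (n + 1) z' := by
      ext i : 1
      exact hzz' (n + 1 + i) (by simp only [Set.mem_ofPred_eq]; omega)
    simp only [Set.mem_preimage] at h ⊢
    rw [← this]
    exact h

lemma q_pos (h : GapLaw γ) (r : ℝ) : 0 < iid ℕ (γ.prod β) (AA r) := by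
  have h1 : γ (Ici r) ≤ iid ℕ (γ.prod β) (AA r) := by
    rw [← iid_eval_fst (β := β) 0 measurableSet_Ici]
    apply measure_mono_ae
    filter_upwards [ae_cfg (β := β) h] with z hz hz0
    show AliveFin (Xs z) (Cs z) r
    rw [← alive_iff_fin hz]
    apply alive_of_gap hz
    have : Xs z 1 - Xs z 0 = (z 0).1 := by
      rw [show (1 : ℕ) = 0 + 1 from rfl, Xs_succ]; ring
    rw [this]
    exact hz0
  refine lt_of_lt_of_le ?_ h1
  rw [pos_iff_ne_zero]
  intro h2
  have h3 := h.unb r
  have h4 : γ (Iio r) + γ (Ici r) = 1 := by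
    rw [← Set.compl_Iio, measure_add_measure_compl measurableSet_Iio, measure_univ]
  rw [h2, add_zero] at h4
  exact absurd h4 h3.ne

/-- The renewal inequality. -/
lemma sum_clean_le (h : GapLaw γ) (r : ℝ) (N : ℕ) :
    (∑ n ∈ Finset.range N, iid ℕ (γ.prod β) (DD (n + 1) (Iio r))) * β {false} ≤ 1 := by
  set μ := iid ℕ (γ.prod β) with hμ
  have hI : MeasurableSet (Iio r) := measurableSet_Iio
  let F : ℕ → Set (ℕ → E) := fun n =>
    DD (n + 1) (Iio r) ∩ {z | (z n).2 ∈ ({false} : Set Bool)} ∩ (sh (n + 1)) ⁻¹' (AA r)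
  have hF : ∀ n, MeasurableSet (F n) := fun n =>
    ((measurableSet_DD (n + 1) hI).inter
      ((measurable_snd.comp (measurable_pi_apply n)) MeasurableSet.of_discrete)).inter
      ((measurable_sh (n + 1)) (measurableSet_AA r))
  have hprop : ∀ z : ℕ → E, Cfg (Xs z) → ∀ n, z ∈ F n → Clean (Xs z) (Cs z) (n + 1) ∧
      Cs z (n + 1) = false ∧ Xs z (n + 1) - Xs z 0 < r ∧ Alive (Xs z) (Cs z) (n + 1) r := by
    intro z hz n hn
    obtain ⟨⟨⟨h1, h2⟩, h3⟩, h4⟩ := hn
    refine ⟨h1, h3, ?_, ?_⟩
    · rw [Xs_zero, sub_zero]; exact h2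
    · rw [alive_sh, alive_iff_fin (cfg_sh hz (n + 1))]
      exact h4
  have hdisj : Pairwise (Function.onFun (AEDisjoint μ) F) := by
    intro a b hab
    rw [Function.onFun, AEDisjoint]
    have : ∀ᵐ z ∂μ, z ∉ F a ∩ F b := by
      filter_upwards [ae_cfg (β := β) h] with z hz hab'
      obtain ⟨ha1, ha2, ha3, ha4⟩ := hprop z hz a hab'.1
      obtain ⟨hb1, hb2, hb3, hb4⟩ := hprop z hz b hab'.2
      rcases lt_or_gt_of_ne hab with hlt | hlt
      · exact clean_disjoint hz (Nat.succ_pos a) (show a + 1 < b + 1 by omega) ha2 hb2 ha1 hb1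
          hb3 ha4 hb4
      · exact clean_disjoint hz (Nat.succ_pos b) (show b + 1 < a + 1 by omega) hb2 ha2 hb1 ha1
          ha3 hb4 ha4
    rw [ae_iff] at this
    simpa using this
  have hsum : ∑ n ∈ Finset.range N, μ (F n) ≤ μ (AA r) := by
    rw [← measure_biUnion_finset₀ (fun a _ b _ hab => hdisj hab)
      (fun n _ => (hF n).nullMeasurableSet)]
    apply measure_mono_ae
    filter_upwards [ae_cfg (β := β) h] with z hz hzF
    have hzF' : z ∈ ⋃ n ∈ Finset.range N, F n := hzF
    simp only [Set.mem_iUnion] at hzF'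
    obtain ⟨n, -, hn⟩ := hzF'
    obtain ⟨h1, h2, h3, h4⟩ := hprop z hz n hn
    show AliveFin (Xs z) (Cs z) r
    rw [← alive_iff_fin hz]
    exact alive_of_clean hz.mono (Nat.succ_pos n) h2 h1 h3 h4
  have hfac : ∀ n, μ (F n) = μ (DD (n + 1) (Iio r)) * β {false} * μ (AA r) := fun n =>
    factor n hI {false} r
  simp_rw [hfac] at hsum
  rw [← Finset.sum_mul, ← Finset.sum_mul] at hsum
  have hq := q_pos (β := β) h r
  have hq' : μ (AA r) ≠ ∞ := measure_ne_top _ _
  have hsum2 : (∑ n ∈ Finset.range N, μ (DD (n + 1) (Iio r))) * β {false} * μ (AA r) ≤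
      1 * μ (AA r) := by rw [one_mul]; exact hsum
  exact (ENNReal.mul_le_mul_iff_left hq.ne' hq').1 hsum2

lemma sum_clean_le' (h : GapLaw γ) (N : ℕ) :
    (∑ n ∈ Finset.range N, iid ℕ (γ.prod β) (DD (n + 1) univ)) * β {false} ≤ 1 := by
  set μ := iid ℕ (γ.prod β) with hμ
  have hlim : ∀ n, Tendsto (fun r : ℕ => μ (DD (n + 1) (Iio (r : ℝ)))) atTop
      (𝓝 (μ (DD (n + 1) univ))) := by
    intro n
    have hmono : Monotone fun r : ℕ => DD (n + 1) (Iio (r : ℝ)) := by
      intro a b hab z hz
      have hab' : (a : ℝ) ≤ b := by exact_mod_cast hab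
      exact ⟨hz.1, Set.mem_Iio.2 (lt_of_lt_of_le (Set.mem_Iio.1 hz.2) hab')⟩
    have hU : ⋃ r : ℕ, DD (n + 1) (Iio (r : ℝ)) = DD (n + 1) univ := by
      ext z
      simp only [Set.mem_iUnion]
      constructor
      · rintro ⟨r, hr⟩
        exact ⟨hr.1, Set.mem_univ _⟩
      · intro hz
        obtain ⟨r, hr⟩ := exists_nat_gt (Xs z (n + 1))
        exact ⟨r, hz.1, hr⟩
    rw [← hU]
    exact tendsto_measure_iUnion_atTop hmono
  have h2 : Tendsto (fun r : ℕ => (∑ n ∈ Finset.range N, μ (DD (n + 1) (Iio (r : ℝ)))) * β {false})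
      atTop (𝓝 ((∑ n ∈ Finset.range N, μ (DD (n + 1) univ)) * β {false})) := by
    apply ENNReal.Tendsto.mul_const
    · exact tendsto_finsetSum _ fun n _ => hlim n
    · right; exact measure_ne_top _ _
  exact le_of_tendsto' h2 fun r => sum_clean_le h (r : ℝ) N

end Pool.Agent.Lib_helper98.SM
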