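import Mathlib
import Pool.Agent.Lib_helper98.SM.Prob

set_option autoImplicit false

open Set Filter Topology MeasureTheory
open scoped ENNReal

namespace Pool.Agent.Lib_helper98.SM

variable {γ : Measure ℝ} {β : Measure Bool} [IsProbabilityMeasure γ] [IsProbabilityMeasure β]

/-- The wall survives to every scale. -/
def Good : Set (ℕ → E) := {z | ∀ k : ℕ, z ∈ AA (k : ℝ)}

lemma measurableSet_Good : MeasurableSet Good := by
  have : Good = ⋂ k : ℕ, AA (k : ℝ) := by
    ext z; simp [Good]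
  rw [this]
  exact MeasurableSet.iInter fun k => measurableSet_AA _

/-- The renewal measure of clean intervals. -/
noncomputable def kap (γ : Measure ℝ) (β : Measure Bool) [IsProbabilityMeasure γ]
    [IsProbabilityMeasure β] : Measure ℝ :=
  Measure.sum fun n : ℕ =>
    ((iid ℕ (γ.prod β)).restrict {z | Clean (Xs z) (Cs z) (n + 1)}).map (fun z => Xs z (n + 1))

lemma kap_apply {I : Set ℝ} (hI : MeasurableSet I) :
    kap γ β I = ∑' n : ℕ, iid ℕ (γ.prod β) (DD (n + 1) I) := by
  unfold kap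
  rw [Measure.sum_apply _ hI]
  congr 1
  ext n : 1
  rw [Measure.map_apply (measurable_Xs (n + 1)) hI,
    Measure.restrict_apply ((measurable_Xs (n + 1)) hI)]
  congr 1
  ext z
  simp only [Set.mem_inter_iff, Set.mem_preimage, Set.mem_ofPred_eq, DD]
  tauto

lemma kap_univ_le (h : GapLaw γ) : kap γ β univ * β {false} ≤ 1 := by
  rw [kap_apply MeasurableSet.univ, ← ENNReal.tsum_mul_right, ENNReal.tsum_eq_iSup_nat]
  apply iSup_le
  intro N
  rw [← Finset.sum_mul]
  exact sum_clean_le' h N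

lemma exists_small_tail (h : GapLaw γ) (hβ : β {false} ≠ 0) :
    ∃ a : ℕ, kap γ β (Ici (a : ℝ)) * β {true} < 1 := by
  have hfin : kap γ β univ ≠ ∞ := by
    intro hinf
    have := kap_univ_le (β := β) h
    rw [hinf, ENNReal.top_mul hβ] at this
    exact absurd this (by simp)
  have hlim : Tendsto (fun a : ℕ => kap γ β (Ici (a : ℝ))) atTop (𝓝 0) := by
    have hanti : Antitone fun a : ℕ => Ici (a : ℝ) := by
      intro a b hab
      exact Set.Ici_subset_Ici.2 (by exact_mod_cast hab)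
    have hinter : ⋂ a : ℕ, Ici (a : ℝ) = (∅ : Set ℝ) := by
      ext x
      simp only [Set.mem_iInter, Set.mem_Ici, Set.mem_empty_iff_false, iff_false, not_forall,
        not_le]
      exact exists_nat_gt x
    have := tendsto_measure_iInter_atTop (μ := kap γ β) (s := fun a : ℕ => Ici (a : ℝ))
      (fun a => measurableSet_Ici.nullMeasurableSet) hanti
      ⟨0, ne_top_of_le_ne_top hfin (measure_mono (Set.subset_univ _))⟩
    rw [hinter, measure_empty] at this
    exact this
  have hlim2 : Tendsto (fun a : ℕ => kap γ β (Ici (a : ℝ)) * β {true}) atTop (𝓝 (0 * β {true})) :=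
    ENNReal.Tendsto.mul_const hlim (Or.inr (measure_ne_top _ _))
  rw [zero_mul] at hlim2
  exact (hlim2.eventually_lt_const (by simp : (0 : ℝ≥0∞) < 1)).exists

lemma alive_of_AA {z : ℕ → E} (hz : Cfg (Xs z)) {r : ℝ} : z ∈ AA r ↔ Alive (Xs z) (Cs z) 0 r :=
  (alive_iff_fin hz r).symm

/-- With positive probability the wall survives to every scale. -/
theorem good_pos (h : GapLaw γ) (hβ : β {false} ≠ 0) : 0 < iid ℕ (γ.prod β) Good := by
  set μ := iid ℕ (γ.prod β) with hμ
  obtain ⟨a, ha⟩ := exists_small_tail (β := β) h hβ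
  let F : ℕ → Set (ℕ → E) := fun n =>
    DD (n + 1) (Ici (a : ℝ)) ∩ {z | (z n).2 ∈ ({true} : Set Bool)} ∩ (sh (n + 1)) ⁻¹' (AA (a : ℝ))
  have hsub : ∀ᵐ z ∂μ, z ∈ AA (a : ℝ) → z ∈ Good ∪ ⋃ n, F n := by
    filter_upwards [ae_cfg (β := β) h] with z hz hza
    by_cases hg : z ∈ Good
    · exact Or.inl hg
    · right
      simp only [Good, Set.mem_ofPred_eq, not_forall] at hg
      obtain ⟨b, hb⟩ := hg
      rw [alive_of_AA hz] at hza hb
      obtain ⟨n, hn0, hn1, -, hn3, hn4, hn5⟩ := exists_killer hz rfl hza hb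
      obtain ⟨k, rfl⟩ : ∃ k, n = k + 1 := ⟨n - 1, by omega⟩
      rw [Set.mem_iUnion]
      refine ⟨k, ⟨⟨hn4, ?_⟩, hn3⟩, ?_⟩
      · rw [Xs_zero, sub_zero] at hn1
        exact hn1
      · rw [Set.mem_preimage, alive_of_AA (cfg_sh hz (k + 1)), ← alive_sh]
        exact hn5
  have h1 : μ (AA (a : ℝ)) ≤ μ Good + (kap γ β (Ici (a : ℝ)) * β {true}) * μ (AA (a : ℝ)) := by
    calc μ (AA (a : ℝ)) ≤ μ (Good ∪ ⋃ n, F n) := measure_mono_ae hsub
      _ ≤ μ Good + μ (⋃ n, F n) := measure_union_le _ _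
      _ ≤ μ Good + ∑' n, μ (F n) := by gcongr; exact measure_iUnion_le _
      _ = μ Good + (kap γ β (Ici (a : ℝ)) * β {true}) * μ (AA (a : ℝ)) := by
        congr 1
        rw [kap_apply measurableSet_Ici, ← ENNReal.tsum_mul_right, ← ENNReal.tsum_mul_right]
        congr 1
        ext n : 1
        exact factor n measurableSet_Ici {true} (a : ℝ)
  by_contra hcon
  have h0 : μ Good = 0 := by
    rw [not_lt] at hcon
    exact le_antisymm hcon zero_le
  rw [h0, zero_add] at h1
  have hq := q_pos (β := β) h (a : ℝ)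
  have hq' : μ (AA (a : ℝ)) ≠ ∞ := measure_ne_top _ _
  have h2 : (kap γ β (Ici (a : ℝ)) * β {true}) * μ (AA (a : ℝ)) < 1 * μ (AA (a : ℝ)) :=
    (ENNReal.mul_lt_mul_iff_left hq.ne' hq').2 ha
  rw [one_mul] at h2
  exact absurd h1 (not_le.2 h2)

/-- On the good event there is a stable matching of the half-line in which every red point is
matched within its distance to the wall. -/
lemma good_stab {z : ℕ → E} (hz : Cfg (Xs z)) (hg : z ∈ Good) :
    ∃ m, Stab (Xs z) (Cs z) (Set.Ioi 0) m ∧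
      ∀ i, 0 < i → Cs z i = true → Near (Xs z) m i (Xs z i) := by
  obtain ⟨m, hm, hm'⟩ := stab_of_alive hz (c := Cs z) fun r => (alive_of_AA hz).1 (hg r)
  refine ⟨m, hm, fun i hi hci => ?_⟩
  have := hm' i hi hci
  rwa [Xs_zero, sub_zero] at this

end Pool.Agent.Lib_helper98.SM
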