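import Mathlib
import Pool.Agent.Lib_helper98.SM.Good

set_option autoImplicit false

open Set Filter Topology MeasureTheory
open scoped ENNReal

namespace Pool.Agent.Lib_helper98.SM

/-- A discrete Gronwall inequality. -/
lemma gronwall {f g : ℝ → ℝ} (hf0 : 1 ≤ f 0) (hg0 : g 0 = 0)
    (hmono : MonotoneOn g (Ici 0)) (hcont : ContinuousOn g (Ici 0))
    (h : ∀ a b, 0 ≤ a → a ≤ b → f a * (1 - (g b - g a)) ≤ f b) (b : ℝ) (hb : 0 ≤ b) :
    Real.exp (-(g b)) ≤ f b := by
  have hgb : 0 ≤ g b := by
    have := hmono (Set.mem_Ici.2 le_rfl) (Set.mem_Ici.2 hb) hb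
    rwa [hg0] at this
  rcases hgb.eq_or_lt with h0 | hpos
  · rw [← h0]
    simp only [neg_zero, Real.exp_zero]
    have := h 0 b le_rfl hb
    rw [← h0, hg0] at this
    simp only [sub_zero, mul_one] at this
    linarith
  · have hlim : Tendsto (fun n : ℕ => (1 + (-(g b)) / (n : ℝ)) ^ n) atTop (𝓝 (Real.exp (-(g b)))) :=
      Real.tendsto_one_add_div_pow_exp (-(g b))
    obtain ⟨N, hN⟩ := exists_nat_gt (g b)
    refine le_of_tendsto hlim ?_
    filter_upwards [Filter.eventually_ge_atTop (max N 1)] with n hn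
    have hnN : (N : ℝ) ≤ n := by exact_mod_cast (le_max_left N 1).trans hn
    have hn1 : (1 : ℝ) ≤ n := by exact_mod_cast (le_max_right N 1).trans hn
    have hn0 : (0 : ℝ) < n := by linarith
    have hfrac : 0 ≤ 1 + (-(g b)) / (n : ℝ) := by
      rw [neg_div]
      have : g b / n ≤ 1 := by
        rw [div_le_one hn0]; linarith
      linarith
    have hex : ∀ i : ℕ, i ≤ n → ∃ x ∈ Icc 0 b, g x = i * (g b / n) := by
      intro i hi
      have himg := intermediate_value_Icc hb (hcont.mono (Set.Icc_subset_Ici_self))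
      rw [hg0] at himg
      have hmem : (i : ℝ) * (g b / n) ∈ Icc 0 (g b) := by
        constructor
        · positivity
        · have hi' : (i : ℝ) ≤ n := by exact_mod_cast hi
          rw [← mul_div_assoc, div_le_iff₀ hn0]
          nlinarith
      obtain ⟨x, hx1, hx2⟩ := himg hmem
      exact ⟨x, hx1, hx2⟩
    have key : ∀ i : ℕ, i ≤ n → ∀ x ∈ Icc 0 b, g x = i * (g b / n) →
        (1 + (-(g b)) / (n : ℝ)) ^ i ≤ f x := by
      intro i
      induction i with
      | zero =>
        intro _ x hx hgx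
        simp only [pow_zero]
        have := h 0 x le_rfl hx.1
        rw [hgx, hg0] at this
        simp only [Nat.cast_zero, zero_mul, sub_zero, mul_one] at this
        linarith
      | succ i ih =>
        intro hi x hx hgx
        obtain ⟨y, hy, hgy⟩ := hex i (by omega)
        have h1 := ih (by omega) y hy hgy
        have hyx : y ≤ x := by
          by_contra hcon
          push Not at hcon
          have h2 := hmono (Set.mem_Ici.2 hx.1) (Set.mem_Ici.2 hy.1) hcon.le
          rw [hgx, hgy] at h2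
          push_cast at h2
          have : 0 < g b / n := by positivity
          nlinarith
        have h2 := h y x hy.1 hyx
        have h3 : 1 - (g x - g y) = 1 + (-(g b)) / (n : ℝ) := by
          rw [hgx, hgy]; push_cast; ring
        rw [h3] at h2
        calc (1 + (-(g b)) / (n : ℝ)) ^ (i + 1) = (1 + (-(g b)) / (n : ℝ)) ^ i *
              (1 + (-(g b)) / (n : ℝ)) := pow_succ _ _
          _ ≤ f y * (1 + (-(g b)) / (n : ℝ)) := mul_le_mul_of_nonneg_right h1 hfrac
          _ ≤ f x := h2
    exact key n le_rfl b ⟨hb, le_rfl⟩ (by field_simp)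

variable {γ : Measure ℝ} {β : Measure Bool} [IsProbabilityMeasure γ] [IsProbabilityMeasure β]

lemma xs_null (h : GapLaw γ) (n : ℕ) (x : ℝ) :
    iid ℕ (γ.prod β) {z | Xs z (n + 1) = x} = 0 := by
  have := h.atoms
  set ν := γ.prod β
  let S : Set ℕ := {l | l < n}
  have hmeas : MeasurableSet {z : ℕ → E | Xs z (n + 1) = x} :=
    measurableSet_eq_fun (measurable_Xs (n + 1)) measurable_const
  rw [← glue_map ν S, Measure.map_apply (measurable_glueF S) hmeas,
    Measure.measure_prod_null ((measurable_glueF S) hmeas)]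
  refine Filter.Eventually.of_forall fun w => ?_
  simp only [Pi.zero_apply]
  have hsub : (Prod.mk w ⁻¹' ((glueF S) ⁻¹' {z : ℕ → E | Xs z (n + 1) = x}))
      ⊆ {y | (y n).1 ∈ ({x - Xs w n} : Set ℝ)} := by
    intro y hy
    simp only [Set.mem_preimage, Set.mem_ofPred_eq] at hy
    have h1 : Xs (glueF S (w, y)) n = Xs w n := by
      unfold Xs
      apply Finset.sum_congr rfl
      intro a ha
      have : a ∈ S := by
        have := Finset.mem_range.1 ha
        simp only [S, Set.mem_ofPred_eq]; omega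
      simp [glueF, this]
    have h2 : glueF S (w, y) n = y n := by
      have : n ∉ S := by simp [S]
      simp [glueF, this]
    rw [Xs_succ, h1, h2] at hy
    simp only [Set.mem_ofPred_eq, Set.mem_singleton_iff]
    linarith
  refine measure_mono_null hsub ?_
  rw [iid_eval_fst n (measurableSet_singleton _)]
  exact measure_singleton _

lemma kap_singleton (h : GapLaw γ) (x : ℝ) : kap γ β {x} = 0 := by
  rw [kap_apply (measurableSet_singleton x)]
  have : ∀ n : ℕ, iid ℕ (γ.prod β) (DD (n + 1) {x}) = 0 := by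
    intro n
    refine measure_mono_null ?_ (xs_null (β := β) h n x)
    intro z hz
    exact hz.2
  simp [this]

lemma kill_ineq (h : GapLaw γ) (a b : ℝ) :
    iid ℕ (γ.prod β) (AA a) ≤ iid ℕ (γ.prod β) (AA b) +
      (kap γ β (Ico a b) * β {true}) * iid ℕ (γ.prod β) (AA a) := by
  set μ := iid ℕ (γ.prod β) with hμ
  let F : ℕ → Set (ℕ → E) := fun n =>
    DD (n + 1) (Ico a b) ∩ {z | (z n).2 ∈ ({true} : Set Bool)} ∩ (sh (n + 1)) ⁻¹' (AA a)
  have hsub : ∀ᵐ z ∂μ, z ∈ AA a → z ∈ AA b ∪ ⋃ n, F n := by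
    filter_upwards [ae_cfg (β := β) h] with z hz hza
    by_cases hg : z ∈ AA b
    · exact Or.inl hg
    · right
      rw [alive_of_AA hz] at hza hg
      obtain ⟨n, hn0, hn1, hn2, hn3, hn4, hn5⟩ := exists_killer hz rfl hza hg
      obtain ⟨k, rfl⟩ : ∃ k, n = k + 1 := ⟨n - 1, by omega⟩
      rw [Set.mem_iUnion]
      refine ⟨k, ⟨⟨hn4, ?_⟩, hn3⟩, ?_⟩
      · rw [Xs_zero, sub_zero] at hn1 hn2
        exact ⟨hn1, hn2⟩
      · rw [Set.mem_preimage, alive_of_AA (cfg_sh hz (k + 1)), ← alive_sh]
        exact hn5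
  calc μ (AA a) ≤ μ (AA b ∪ ⋃ n, F n) := measure_mono_ae hsub
    _ ≤ μ (AA b) + μ (⋃ n, F n) := measure_union_le _ _
    _ ≤ μ (AA b) + ∑' n, μ (F n) := by gcongr; exact measure_iUnion_le _
    _ = μ (AA b) + (kap γ β (Ico a b) * β {true}) * μ (AA a) := by
      congr 1
      rw [kap_apply measurableSet_Ico, ← ENNReal.tsum_mul_right, ← ENNReal.tsum_mul_right]
      congr 1
      ext n : 1
      exact factor n measurableSet_Ico {true} a

lemma kill_ineq_good (h : GapLaw γ) (a : ℕ) :
    iid ℕ (γ.prod β) (AA (a : ℝ)) ≤ iid ℕ (γ.prod β) Good +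
      (kap γ β (Ici (a : ℝ)) * β {true}) * iid ℕ (γ.prod β) (AA (a : ℝ)) := by
  set μ := iid ℕ (γ.prod β) with hμ
  let F : ℕ → Set (ℕ → E) := fun n =>
    DD (n + 1) (Ici (a : ℝ)) ∩ {z | (z n).2 ∈ ({true} : Set Bool)} ∩ (sh (n + 1)) ⁻¹' (AA (a : ℝ))
  have hsub : ∀ᵐ z ∂μ, z ∈ AA (a : ℝ) → z ∈ Good ∪ ⋃ n, F n := by
    filter_upwards [ae_cfg (β := β) h] with z hz hza
    by_cases hg : z ∈ Good
    · exact Or.inl hg
    · right
      simp only [Good, Set.mem_ofPred_eq, not_forall] at hg
      obtain ⟨b, hb⟩ := hg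
      rw [alive_of_AA hz] at hza hb
      obtain ⟨n, hn0, hn1, -, hn3, hn4, hn5⟩ := exists_killer hz rfl hza hb
      obtain ⟨k, rfl⟩ : ∃ k, n = k + 1 := ⟨n - 1, by omega⟩
      rw [Set.mem_iUnion]
      refine ⟨k, ⟨⟨hn4, ?_⟩, hn3⟩, ?_⟩
      · rw [Xs_zero, sub_zero] at hn1
        exact hn1
      · rw [Set.mem_preimage, alive_of_AA (cfg_sh hz (k + 1)), ← alive_sh]
        exact hn5
  calc μ (AA (a : ℝ)) ≤ μ (Good ∪ ⋃ n, F n) := measure_mono_ae hsub
    _ ≤ μ Good + μ (⋃ n, F n) := measure_union_le _ _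
    _ ≤ μ Good + ∑' n, μ (F n) := by gcongr; exact measure_iUnion_le _
    _ = μ Good + (kap γ β (Ici (a : ℝ)) * β {true}) * μ (AA (a : ℝ)) := by
      congr 1
      rw [kap_apply measurableSet_Ici, ← ENNReal.tsum_mul_right, ← ENNReal.tsum_mul_right]
      congr 1
      ext n : 1
      exact factor n measurableSet_Ici {true} (a : ℝ)

/-- Quantitative lower bound for the survival probability of a blue wall. -/
theorem good_ge (h : GapLaw γ) {p : ℝ} (hp0 : 0 ≤ p) (hp1 : p < 1)
    (hβt : β {true} = ENNReal.ofReal p) (hβf : β {false} = ENNReal.ofReal (1 - p)) :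
    Real.exp (-(p / (1 - p))) ≤ (iid ℕ (γ.prod β) Good).toReal := by
  set μ := iid ℕ (γ.prod β) with hμ
  have hpos : 0 < 1 - p := by linarith
  have hfin : kap γ β univ ≠ ∞ := by
    intro hinf
    have h1 := kap_univ_le (β := β) h
    have h2 : β {false} ≠ 0 := by rw [hβf]; simpa using hp1
    rw [hinf, ENNReal.top_mul h2] at h1
    exact absurd h1 (by simp)
  have hfinI : ∀ I : Set ℝ, kap γ β I ≠ ∞ := fun I =>
    ne_top_of_le_ne_top hfin (measure_mono (Set.subset_univ _))
  have : IsFiniteMeasure (kap γ β) := ⟨hfin.lt_top⟩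
  set k := (kap γ β).real with hk
  have hkuniv : p * k univ ≤ p / (1 - p) := by
    have h1 := kap_univ_le (β := β) h
    have h2 := ENNReal.toReal_mono (by simp) h1
    rw [ENNReal.toReal_mul, hβf, ENNReal.toReal_ofReal hpos.le, ENNReal.toReal_one] at h2
    rw [le_div_iff₀ hpos]
    have h3 : k univ * (1 - p) ≤ 1 := h2
    nlinarith
  let f : ℝ → ℝ := fun x => (μ (AA x)).toReal
  let g : ℝ → ℝ := fun x => p * k (Ico 0 x)
  have hadd : ∀ a b : ℝ, 0 ≤ a → a ≤ b → k (Ico 0 b) = k (Ico 0 a) + k (Ico a b) := by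
    intro a b ha hab
    rw [hk, ← measureReal_union _ measurableSet_Ico, Ico_union_Ico_eq_Ico ha hab]
    rw [Set.disjoint_left]
    intro x hx hx'
    exact absurd hx.2 (not_lt.2 hx'.1)
  have hg : ∀ a b : ℝ, 0 ≤ a → a ≤ b → g b - g a = p * k (Ico a b) := by
    intro a b ha hab
    simp only [g]
    rw [hadd a b ha hab]; ring
  have hkn : ∀ I, 0 ≤ k I := fun I => measureReal_nonneg
  have hmono : MonotoneOn g (Ici 0) := by
    intro a ha b _ hab
    have := hg a b ha hab
    have h2 := mul_nonneg hp0 (hkn (Ico a b))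
    linarith
  have hcont : ContinuousOn g (Ici 0) := by
    apply Continuous.continuousOn
    apply Continuous.mul continuous_const
    -- the distribution function of an atomless finite measure is continuous
    rw [continuous_iff_continuousAt]
    intro x
    have hint : ∀ y : ℝ, k (Ico 0 y) = ∫ t, (Ico 0 y).indicator (fun _ => (1 : ℝ)) t ∂(kap γ β) := by
      intro y
      rw [integral_indicator measurableSet_Ico, setIntegral_const, smul_eq_mul, mul_one]
    have : (fun y : ℝ => k (Ico 0 y)) = fun y => ∫ t, (Ico 0 y).indicator (fun _ => (1 : ℝ)) t ∂(kap γ β) := by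
      ext y; exact hint y
    rw [this]
    apply continuousAt_of_dominated (bound := fun _ => (1 : ℝ))
    · exact Filter.Eventually.of_forall fun y =>
        (measurable_const.indicator measurableSet_Ico).aestronglyMeasurable
    · refine Filter.Eventually.of_forall fun y => Filter.Eventually.of_forall fun t => ?_
      by_cases ht : t ∈ Ico 0 y
      · simp [Set.indicator_of_mem ht]
      · simp [Set.indicator_of_notMem ht]
    · exact integrable_const _
    · have hne : ∀ᵐ t ∂(kap γ β), t ≠ x := by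
        rw [ae_iff]
        have : {a | ¬ a ≠ x} = {x} := by ext; simp
        rw [this]
        exact kap_singleton h x
      filter_upwards [hne] with t ht
      rcases lt_or_gt_of_ne ht with h1 | h1
      · -- `t < x`: constant near `x`
        have hev : (fun y => (Ico 0 y).indicator (fun _ => (1 : ℝ)) t) =ᶠ[𝓝 x]
            fun _ => if 0 ≤ t then (1 : ℝ) else 0 := by
          filter_upwards [lt_mem_nhds h1] with y hy
          by_cases h0 : 0 ≤ t
          · have hmem : t ∈ Ico 0 y := ⟨h0, hy⟩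
            rw [Set.indicator_of_mem hmem, if_pos h0]
          · rw [Set.indicator_of_notMem (fun h2 => h0 h2.1), if_neg h0]
        exact (continuousAt_congr hev).2 continuousAt_const
      · have hev : (fun y => (Ico 0 y).indicator (fun _ => (1 : ℝ)) t) =ᶠ[𝓝 x]
            fun _ => (0 : ℝ) := by
          filter_upwards [gt_mem_nhds h1] with y hy
          rw [Set.indicator_of_notMem (fun h2 => absurd h2.2 (not_lt.2 hy.le))]
        exact (continuousAt_congr hev).2 continuousAt_const
  have hf0 : 1 ≤ f 0 := by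
    have : μ (AA 0) = 1 := by
      refine le_antisymm prob_le_one ?_
      have h1 : μ univ = 1 := measure_univ
      rw [← h1]
      apply measure_mono_ae
      filter_upwards [ae_cfg (β := β) h] with z hz _
      show z ∈ AA 0
      rw [alive_of_AA hz]
      apply alive_of_gap hz
      have := hz.mono (show 0 < 1 by norm_num)
      linarith
    simp only [f]
    rw [this]
    simp
  have hstep : ∀ a b, 0 ≤ a → a ≤ b → f a * (1 - (g b - g a)) ≤ f b := by
    intro a b ha hab
    rw [hg a b ha hab]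
    have h1 := kill_ineq (β := β) h a b
    have h2 := ENNReal.toReal_mono (by
      refine ENNReal.add_ne_top.2 ⟨measure_ne_top _ _, ENNReal.mul_ne_top (ENNReal.mul_ne_top
        (hfinI _) (measure_ne_top _ _)) (measure_ne_top _ _)⟩) h1
    rw [ENNReal.toReal_add (measure_ne_top _ _) (ENNReal.mul_ne_top (ENNReal.mul_ne_top
        (hfinI _) (measure_ne_top _ _)) (measure_ne_top _ _)), ENNReal.toReal_mul,
        ENNReal.toReal_mul, hβt, ENNReal.toReal_ofReal hp0] at h2
    have h3 : f a ≤ f b + k (Ico a b) * p * f a := h2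
    nlinarith
  have hgr := gronwall hf0 (by simp [g, hk]) hmono hcont hstep
  -- pass to the limit
  have hbound : ∀ a : ℕ, Real.exp (-(p / (1 - p))) * (1 - p * k (Ici (a : ℝ))) ≤ (μ Good).toReal ∨
      1 - p * k (Ici (a : ℝ)) < 0 := by
    intro a
    by_cases hneg : 1 - p * k (Ici (a : ℝ)) < 0
    · exact Or.inr hneg
    · left
      push Not at hneg
      have h1 := kill_ineq_good (β := β) h a
      have h2 := ENNReal.toReal_mono (by
        refine ENNReal.add_ne_top.2 ⟨measure_ne_top _ _, ENNReal.mul_ne_top (ENNReal.mul_ne_top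
          (hfinI _) (measure_ne_top _ _)) (measure_ne_top _ _)⟩) h1
      rw [ENNReal.toReal_add (measure_ne_top _ _) (ENNReal.mul_ne_top (ENNReal.mul_ne_top
          (hfinI _) (measure_ne_top _ _)) (measure_ne_top _ _)), ENNReal.toReal_mul,
          ENNReal.toReal_mul, hβt, ENNReal.toReal_ofReal hp0] at h2
      have h3 : f a ≤ (μ Good).toReal + k (Ici (a : ℝ)) * p * f a := h2
      have h4 := hgr a (Nat.cast_nonneg a)
      have h5 : g a ≤ p / (1 - p) := by
        refine le_trans ?_ hkuniv
        exact mul_le_mul_of_nonneg_left (measureReal_mono (Set.subset_univ _)) hp0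
      have h6 : Real.exp (-(p / (1 - p))) ≤ f a :=
        (Real.exp_le_exp.2 (by linarith)).trans h4
      calc Real.exp (-(p / (1 - p))) * (1 - p * k (Ici (a : ℝ)))
          ≤ f a * (1 - p * k (Ici (a : ℝ))) := mul_le_mul_of_nonneg_right h6 hneg
        _ ≤ (μ Good).toReal := by nlinarith
  have hlim : Tendsto (fun a : ℕ => k (Ici (a : ℝ))) atTop (𝓝 0) := by
    have hanti : Antitone fun a : ℕ => Ici (a : ℝ) := by
      intro a b hab
      exact Set.Ici_subset_Ici.2 (by exact_mod_cast hab)
    have hinter : ⋂ a : ℕ, Ici (a : ℝ) = (∅ : Set ℝ) := by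
      ext x
      simp only [Set.mem_iInter, Set.mem_Ici, Set.mem_empty_iff_false, iff_false, not_forall,
        not_le]
      exact exists_nat_gt x
    have := tendsto_measure_iInter_atTop (μ := kap γ β) (s := fun a : ℕ => Ici (a : ℝ))
      (fun a => measurableSet_Ici.nullMeasurableSet) hanti ⟨0, hfinI _⟩
    rw [hinter, measure_empty] at this
    have h2 := (ENNReal.tendsto_toReal (by simp)).comp this
    simp only [ENNReal.toReal_zero] at h2
    exact h2
  have hlim2 : Tendsto (fun a : ℕ => Real.exp (-(p / (1 - p))) * (1 - p * k (Ici (a : ℝ)))) atTop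
      (𝓝 (Real.exp (-(p / (1 - p))) * (1 - p * 0))) :=
    tendsto_const_nhds.mul (tendsto_const_nhds.sub (tendsto_const_nhds.mul hlim))
  rw [mul_zero, sub_zero, mul_one] at hlim2
  have hlim3 : Tendsto (fun a : ℕ => 1 - p * k (Ici (a : ℝ))) atTop (𝓝 (1 - p * 0)) :=
    tendsto_const_nhds.sub (tendsto_const_nhds.mul hlim)
  rw [mul_zero, sub_zero] at hlim3
  refine le_of_tendsto hlim2 ?_
  filter_upwards [hlim3.eventually (lt_mem_nhds (show (0 : ℝ) < 1 by norm_num))] with a ha
  rcases hbound a with h1 | h1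
  · exact h1
  · linarith

end Pool.Agent.Lib_helper98.SM
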