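import Mathlib
import Pool.Agent.Lib_helper98.SM.Quant

set_option autoImplicit false

open Set Filter Topology MeasureTheory
open scoped ENNReal

namespace Pool.Agent.Lib_helper98.SM

/-- Positions of the points: partial sums of the gaps to the right and to the left of the
origin. -/
noncomputable def position (ξ : ℤ → ℝ) : ℤ → ℝ
  | Int.ofNat n => ∑ i ∈ Finset.range (n + 1), ξ (Int.ofNat i)
  | Int.negSucc n => -∑ i ∈ Finset.range (n + 1), ξ (Int.negSucc i)

lemma position_succ (ξ : ℤ → ℝ) (n : ℤ) (hn : 0 ≤ n) :
    position ξ (n + 1) = position ξ n + ξ (n + 1) := by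
  obtain ⟨k, rfl⟩ := Int.eq_ofNat_of_zero_le hn
  show position ξ (Int.ofNat (k + 1)) = position ξ (Int.ofNat k) + ξ (Int.ofNat (k + 1))
  simp only [position]
  rw [Finset.sum_range_succ]

lemma position_pred (ξ : ℤ → ℝ) (n : ℤ) (hn : n ≤ -2) :
    position ξ n = position ξ (n + 1) - ξ n := by
  obtain ⟨k, rfl⟩ : ∃ k : ℕ, n = Int.negSucc (k + 1) := ⟨(-n - 2).toNat, by omega⟩
  have e : Int.negSucc (k + 1) + 1 = Int.negSucc k := by omega
  rw [e]
  simp only [position]
  rw [Finset.sum_range_succ]
  ring

lemma position_zero (ξ : ℤ → ℝ) : position ξ 0 = ξ 0 := by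
  show position ξ (Int.ofNat 0) = ξ 0
  simp [position]

lemma position_neg_one (ξ : ℤ → ℝ) : position ξ (-1) = -ξ (-1) := by
  show position ξ (Int.negSucc 0) = -ξ (-1)
  simp [position]

lemma position_congr {ξ ξ' : ℤ → ℝ} (n : ℤ)
    (h : ∀ l, ((0 ≤ l ∧ l ≤ n) ∨ (n ≤ l ∧ l < 0)) → ξ l = ξ' l) : position ξ n = position ξ' n := by
  cases n with
  | ofNat n =>
    simp only [position]
    apply Finset.sum_congr rfl
    intro i hi
    have := Finset.mem_range.1 hi
    apply h
    left
    constructor
    · exact Int.natCast_nonneg i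
    · exact Int.ofNat_le.2 (by omega)
  | negSucc n =>
    simp only [position]
    congr 1
    apply Finset.sum_congr rfl
    intro i hi
    have := Finset.mem_range.1 hi
    apply h
    right
    constructor <;> omega

/-- Right and left sequences. -/
def zR (w : ℤ → E) : ℕ → E := fun k => w ((k : ℤ) + 1)
/-- Left sequence. -/
def zL (w : ℤ → E) : ℕ → E := fun k => w (Int.negSucc k)

/-- The gaps. -/
def gp (w : ℤ → E) : ℤ → ℝ := fun n => (w n).1
/-- The colours. -/
def cl (w : ℤ → E) : ℤ → Bool := fun n => (w n).2

lemma position_right (w : ℤ → E) (n : ℕ) :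
    position (gp w) (n : ℤ) = gp w 0 + Xs (zR w) n := by
  induction n with
  | zero => simp [Xs_zero, position_zero]
  | succ n ih =>
    push_cast
    rw [position_succ _ _ (Int.natCast_nonneg n), ih, Xs_succ]
    simp only [gp, zR]
    ring

lemma position_left (w : ℤ → E) (n : ℕ) :
    position (gp w) (Int.negSucc n) = -Xs (zL w) (n + 1) := by
  simp only [position, Xs, zL, gp]

lemma Cs_right (w : ℤ → E) (n : ℕ) (hn : 0 < n) : Cs (zR w) n = cl w (n : ℤ) := by
  obtain ⟨k, rfl⟩ : ∃ k, n = k + 1 := ⟨n - 1, by omega⟩
  simp only [Cs, zR, cl]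
  push_cast
  rfl

lemma Cs_left (w : ℤ → E) (n : ℕ) : Cs (zL w) (n + 1) = cl w (Int.negSucc n) := rfl

/-- Regular two-sided configurations. -/
structure CfgZ (w : ℤ → E) : Prop where
  pos : ∀ n, 0 < gp w n
  right : Cfg (Xs (zR w))
  left : Cfg (Xs (zL w))
  noties : ∀ j i k : ℤ, j < i → i < k →
    position (gp w) i - position (gp w) j ≠ position (gp w) k - position (gp w) i

lemma strictMono_position {ξ : ℤ → ℝ} (h : ∀ n, 0 < ξ n) : StrictMono (position ξ) := by
  apply strictMono_int_of_lt_succ
  intro n
  rcases le_or_gt 0 n with hn | hn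
  · rw [position_succ ξ n hn]; linarith [h (n + 1)]
  · by_cases hn1 : n = -1
    · subst hn1
      rw [show (-1 : ℤ) + 1 = 0 by norm_num, position_zero, position_neg_one]
      linarith [h 0, h (-1)]
    · rw [position_pred ξ n (by omega)]
      linarith [h n]

lemma CfgZ.noTies {w : ℤ → E} (h : CfgZ w) : NoTies (position (gp w)) := by
  have hmono := strictMono_position h.pos
  have key : ∀ i j k, j < i → i < k →
      |position (gp w) i - position (gp w) j| ≠ |position (gp w) i - position (gp w) k| := by
    intro i j k hji hik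
    have h1 := hmono hji
    have h2 := hmono hik
    rw [abs_of_pos (by linarith), abs_of_neg (by linarith), neg_sub]
    exact h.noties j i k hji hik
  intro i j k hij hik hjk
  rcases lt_or_gt_of_ne hij with h4 | h4 <;> rcases lt_or_gt_of_ne hik with h5 | h5
  · have h1 := hmono h4
    have h2 := hmono h5
    rw [abs_of_neg (by linarith), abs_of_neg (by linarith)]
    intro h6
    exact hjk (hmono.injective (by linarith))
  · exact (key i k j h5 h4).symm
  · exact key i j k h4 h5
  · have h1 := hmono h4
    have h2 := hmono h5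
    rw [abs_of_pos (by linarith), abs_of_pos (by linarith)]
    intro h6
    exact hjk (hmono.injective (by linarith))

lemma CfgZ.block {w : ℤ → E} (h : CfgZ w) (r : ℝ) : ∃ F : Finset ℤ, (0 : ℤ) ∈ F ∧
    ∀ x ∈ F, ∀ y ∉ F, r ≤ |position (gp w) x - position (gp w) y| := by
  have hmono := strictMono_position h.pos
  obtain ⟨b, -, hb⟩ := h.right.gaps r 0
  obtain ⟨a, ha1, ha⟩ := h.left.gaps r 1
  -- gap after `b` on the right, gap before `-a` on the left
  have hb' : r ≤ position (gp w) ((b : ℤ) + 1) - position (gp w) (b : ℤ) := by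
    have e : ((b : ℤ) + 1) = ((b + 1 : ℕ) : ℤ) := by push_cast; rfl
    rw [e, position_right, position_right]
    linarith
  have ha' : r ≤ position (gp w) (-(a : ℤ)) - position (gp w) (-(a : ℤ) - 1) := by
    obtain ⟨k, rfl⟩ : ∃ k, a = k + 1 := ⟨a - 1, by omega⟩
    have e1 : (-((k + 1 : ℕ) : ℤ)) = Int.negSucc k := rfl
    have e2 : Int.negSucc k - 1 = Int.negSucc (k + 1) := by omega
    rw [e1, e2, position_left, position_left]
    linarith
  refine ⟨Finset.Icc (-(a : ℤ)) b, Finset.mem_Icc.2 ⟨by omega, by omega⟩, ?_⟩
  intro x hx y hy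
  rw [Finset.mem_Icc] at hx hy
  by_cases hyb : (b : ℤ) < y
  · have h1 : position (gp w) ((b : ℤ) + 1) ≤ position (gp w) y := hmono.monotone (by omega)
    have h2 : position (gp w) x ≤ position (gp w) b := hmono.monotone hx.2
    rw [abs_sub_comm]
    exact le_trans (by linarith) (le_abs_self _)
  · have hya : y ≤ -(a : ℤ) - 1 := by
      by_contra hcon
      exact hy ⟨by omega, by omega⟩
    have h1 : position (gp w) y ≤ position (gp w) (-(a : ℤ) - 1) := hmono.monotone hya
    have h2 : position (gp w) (-(a : ℤ)) ≤ position (gp w) x := hmono.monotone hx.1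
    exact le_trans (by linarith) (le_abs_self _)

/-- The good event. -/
def VV : Set (ℤ → E) := {w | (w 0).2 = false ∧ zR w ∈ Good ∧ zL w ∈ Good}

/-- On the good event there is a stable matching in which the point `0` is unmatched. -/
lemma exists_stab_of_good {w : ℤ → E} (h : CfgZ w) (hw : w ∈ VV) :
    ∃ m : ℤ → ℤ, Stab (position (gp w)) (cl w) Set.univ m ∧ m 0 = 0 := by
  obtain ⟨h0, hR, hL⟩ := hw
  obtain ⟨mR, sR, nR⟩ := good_stab h.right hR
  obtain ⟨mL, sL, nL⟩ := good_stab h.left hL
  set X := position (gp w) with hX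
  have hmono : StrictMono X := strictMono_position h.pos
  have hX0 : 0 < X 0 := by rw [hX, position_zero]; exact h.pos 0
  have mR0 : mR 0 = 0 := by
    by_contra h1
    exact absurd (sR.supp 0 h1) (lt_irrefl 0)
  have mL0 : mL 0 = 0 := by
    by_contra h1
    exact absurd (sL.supp 0 h1) (lt_irrefl 0)
  have mRpos : ∀ n, 0 < n → 0 < mR n := by
    intro n hn
    by_contra h1
    have h2 : mR n = 0 := by omega
    have h3 := sR.inv n
    rw [h2, mR0] at h3
    omega
  have mLpos : ∀ n, 0 < n → 0 < mL n := by
    intro n hn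
    by_contra h1
    have h2 : mL n = 0 := by omega
    have h3 := sL.inv n
    rw [h2, mL0] at h3
    omega
  let m : ℤ → ℤ := fun z => match z with
    | Int.ofNat n => (mR n : ℤ)
    | Int.negSucc n => -(mL (n + 1) : ℤ)
  have e1 : ∀ n : ℕ, m (n : ℤ) = (mR n : ℤ) := fun n => rfl
  have e2 : ∀ n : ℕ, m (-(n : ℤ)) = -(mL n : ℤ) := by
    intro n
    cases n with
    | zero =>
      show m 0 = -(mL 0 : ℤ)
      rw [mL0]
      show (mR 0 : ℤ) = _
      rw [mR0]; simp
    | succ n => rfl
  have p1 : ∀ n : ℕ, X (n : ℤ) = gp w 0 + Xs (zR w) n := fun n => position_right w n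
  have p2 : ∀ n : ℕ, 0 < n → X (-(n : ℤ)) = -Xs (zL w) n := by
    intro n hn
    obtain ⟨k, rfl⟩ : ∃ k, n = k + 1 := ⟨n - 1, by omega⟩
    exact position_left w k
  have c1 : ∀ n : ℕ, 0 < n → cl w (n : ℤ) = Cs (zR w) n := fun n hn => (Cs_right w n hn).symm
  have c2 : ∀ n : ℕ, 0 < n → cl w (-(n : ℤ)) = Cs (zL w) n := by
    intro n hn
    obtain ⟨k, rfl⟩ : ∃ k, n = k + 1 := ⟨n - 1, by omega⟩
    rfl
  have d1 : ∀ a b : ℕ, X (a : ℤ) - X (b : ℤ) = Xs (zR w) a - Xs (zR w) b := by
    intro a b; rw [p1, p1]; ring
  have d2 : ∀ a b : ℕ, 0 < a → 0 < b → X (-(a : ℤ)) - X (-(b : ℤ)) = -(Xs (zL w) a - Xs (zL w) b) := by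
    intro a b ha hb; rw [p2 a ha, p2 b hb]; ring
  have n1 : ∀ (a : ℕ) (d : ℝ), Near (Xs (zR w)) mR a d → Near X m (a : ℤ) d := by
    intro a d hn
    refine ⟨?_, ?_⟩
    · rw [e1]; intro h2; exact hn.1 (by exact_mod_cast h2)
    · rw [e1, d1]; exact hn.2
  have n2 : ∀ (a : ℕ) (d : ℝ), 0 < a → Near (Xs (zL w)) mL a d → Near X m (-(a : ℤ)) d := by
    intro a d ha hn
    refine ⟨?_, ?_⟩
    · rw [e2]; intro h2; exact hn.1 (by omega)
    · rw [e2, d2 a _ ha (mLpos a ha), abs_neg]; exact hn.2
  have hred : ∀ a : ℕ, 0 < a → cl w (a : ℤ) = true → Near X m (a : ℤ) (X a - X 0) := by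
    intro a ha hc
    have h1 := nR a ha (by rw [← c1 a ha]; exact hc)
    have h2 : X (a : ℤ) - X 0 = Xs (zR w) a := by
      have := d1 a 0
      rw [Xs_zero, sub_zero] at this
      exact_mod_cast this
    rw [h2]
    exact n1 a _ h1
  have hredL : ∀ a : ℕ, 0 < a → cl w (-(a : ℤ)) = true → Near X m (-(a : ℤ)) (-X (-(a : ℤ))) := by
    intro a ha hc
    have h1 := nL a ha (by rw [← c2 a ha]; exact hc)
    rw [p2 a ha, neg_neg]
    exact n2 a _ ha h1
  have m0 : m 0 = 0 := by
    show (mR 0 : ℤ) = 0
    rw [mR0]; rfl
  have hcl0 : cl w 0 = false := h0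
  refine ⟨m, ⟨?_, fun i _ => Set.mem_univ i, ?_, ?_⟩, m0⟩
  · -- involution
    intro z
    rcases le_total 0 z with hz | hz
    · obtain ⟨n, rfl⟩ := Int.eq_ofNat_of_zero_le hz
      have h1 : m (m (n : ℤ)) = ((mR (mR n) : ℕ) : ℤ) := by rw [e1]
      rw [h1, sR.inv]
    · obtain ⟨n, hn⟩ := Int.eq_ofNat_of_zero_le (show 0 ≤ -z by omega)
      have : z = -(n : ℤ) := by omega
      have h1 : m (m (-(n : ℤ))) = -((mL (mL n) : ℕ) : ℤ) := by rw [e2, e2]
      rw [this, h1, sL.inv]
  · -- compatible
    intro z hz
    rcases lt_trichotomy 0 z with hz0 | hz0 | hz0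
    · obtain ⟨n, rfl⟩ := Int.eq_ofNat_of_zero_le hz0.le
      have hn : 0 < n := by omega
      have hne : mR n ≠ n := by
        intro h1; apply hz; rw [e1, h1]
      have := sR.compat n hne
      rw [e1, c1 n hn, c1 _ (mRpos n hn)]
      exact this
    · exact absurd (by rw [← hz0]; exact m0) hz
    · obtain ⟨n, hn⟩ := Int.eq_ofNat_of_zero_le (show 0 ≤ -z by omega)
      have hzn : z = -(n : ℤ) := by omega
      have hn : 0 < n := by omega
      rw [hzn] at hz ⊢
      have hne : mL n ≠ n := by
        intro h1; apply hz; rw [e2, h1]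
      have := sL.compat n hne
      rw [e2, c2 n hn, c2 _ (mLpos n hn)]
      exact this
  · -- stability
    have main : ∀ i j : ℤ, i < j → (cl w i = true ∨ cl w j = true) →
        Near X m i |X i - X j| ∨ Near X m j |X i - X j| := by
      intro i j hij hcc
      have hXij := hmono hij
      have habs : |X i - X j| = X j - X i := by
        rw [abs_sub_comm, abs_of_pos (by linarith)]
      rcases lt_or_ge 0 i with hi | hi
      · -- both positive
        obtain ⟨a, rfl⟩ := Int.eq_ofNat_of_zero_le hi.le
        obtain ⟨b, rfl⟩ := Int.eq_ofNat_of_zero_le (hi.trans hij).le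
        have ha : 0 < a := by omega
        have hb : 0 < b := by omega
        rw [c1 a ha, c1 b hb] at hcc
        rw [d1]
        rcases sR.stab a ha b hb (by omega) hcc with h1 | h1
        · exact Or.inl (n1 a _ h1)
        · exact Or.inr (n1 b _ h1)
      · rcases lt_or_ge 0 j with hj | hj
        · -- `i ≤ 0 < j`
          obtain ⟨b, rfl⟩ := Int.eq_ofNat_of_zero_le hj.le
          have hb : 0 < b := by omega
          by_cases hcj : cl w (b : ℤ) = true
          · right
            have hXi0 : X i ≤ X 0 := hmono.monotone hi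
            rw [habs]
            exact (hred b hb hcj).mono (by linarith)
          · have hci : cl w i = true := by
              rcases hcc with h1 | h1
              · exact h1
              · exact absurd h1 hcj
            have hi0 : i ≠ 0 := by
              rintro rfl
              rw [hcl0] at hci
              exact absurd hci (by simp)
            obtain ⟨a, ha⟩ := Int.eq_ofNat_of_zero_le (show 0 ≤ -i by omega)
            have hia : i = -(a : ℤ) := by omega
            have ha0 : 0 < a := by omega
            left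
            have hXb : 0 < X (b : ℤ) := hX0.trans (hmono hj)
            rw [habs]
            rw [hia] at hci ⊢
            exact (hredL a ha0 hci).mono (by linarith)
        · rcases lt_or_ge j 0 with hj' | hj'
          · -- both negative
            obtain ⟨a, ha⟩ := Int.eq_ofNat_of_zero_le (show 0 ≤ -i by omega)
            obtain ⟨b, hb⟩ := Int.eq_ofNat_of_zero_le (show 0 ≤ -j by omega)
            have hia : i = -(a : ℤ) := by omega
            have hjb : j = -(b : ℤ) := by omega
            have ha0 : 0 < a := by omega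
            have hb0 : 0 < b := by omega
            rw [hia, hjb] at hcc ⊢
            rw [c2 a ha0, c2 b hb0] at hcc
            rw [d2 a b ha0 hb0, abs_neg]
            rcases sL.stab a ha0 b hb0 (by omega) hcc with h1 | h1
            · exact Or.inl (n2 a _ ha0 h1)
            · exact Or.inr (n2 b _ hb0 h1)
          · -- `j = 0`
            have hj0 : j = 0 := by omega
            subst hj0
            have hci : cl w i = true := by
              rcases hcc with h1 | h1
              · exact h1
              · rw [hcl0] at h1; exact absurd h1 (by simp)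
            obtain ⟨a, ha⟩ := Int.eq_ofNat_of_zero_le (show 0 ≤ -i by omega)
            have hia : i = -(a : ℤ) := by omega
            have ha0 : 0 < a := by omega
            left
            rw [habs]
            rw [hia] at hci ⊢
            exact (hredL a ha0 hci).mono (by linarith)
    intro i _ j _ hij hcc
    rcases lt_or_gt_of_ne hij with h1 | h1
    · exact main i j h1 hcc
    · rw [abs_sub_comm]
      exact (main j i h1 hcc.symm).symm

/-- In a regular configuration the partner of `0` is the same in all stable matchings. -/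
lemma unique_at_zero {w : ℤ → E} (h : CfgZ w) {m m' : ℤ → ℤ}
    (hm : Stab (position (gp w)) (cl w) Set.univ m)
    (hm' : Stab (position (gp w)) (cl w) Set.univ m') (h0 : m 0 = 0) : m' 0 = 0 := by
  by_contra hne
  obtain ⟨r, hr⟩ := exists_gt |position (gp w) 0 - position (gp w) (m' 0)|
  obtain ⟨F, hF0, hF⟩ := h.block r
  have hu := (hm.trunc r).unique h.noTies (hm'.trunc r) F hF 0 hF0
  have hr0 : |position (gp w) 0 - position (gp w) (m 0)| < r := by
    rw [h0, sub_self, abs_zero]
    exact lt_of_le_of_lt (abs_nonneg _) hr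
  rw [tr_of_lt hr0, tr_of_lt hr, h0] at hu
  exact hne hu.symm

/-! ### Probability -/

variable {γ : Measure ℝ} {β : Measure Bool} [IsProbabilityMeasure γ] [IsProbabilityMeasure β]

lemma measurable_zR : Measurable zR := measurable_pi_iff.2 fun _ => measurable_pi_apply _
lemma measurable_zL : Measurable zL := measurable_pi_iff.2 fun _ => measurable_pi_apply _

lemma map_zR (ν : Measure E) [IsProbabilityMeasure ν] : (iid ℤ ν).map zR = iid ℕ ν :=
  reindex_map ν (fun k : ℕ => (k : ℤ) + 1) fun a b h => by
    simp only at h; omega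

lemma map_zL (ν : Measure E) [IsProbabilityMeasure ν] : (iid ℤ ν).map zL = iid ℕ ν :=
  reindex_map ν (fun k : ℕ => Int.negSucc k) fun a b h => by
    simp only at h; omega

lemma measure_VV : iid ℤ (γ.prod β) VV =
    β {false} * (iid ℕ (γ.prod β) Good * iid ℕ (γ.prod β) Good) := by
  set ν := γ.prod β with hν
  have hA : MeasurableSet {w : ℤ → E | (w 0).2 = false} :=
    (measurable_snd.comp (measurable_pi_apply 0)) (measurableSet_singleton false)
  have hR : MeasurableSet (zR ⁻¹' Good) := measurable_zR measurableSet_Good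
  have hL : MeasurableSet (zL ⁻¹' Good) := measurable_zL measurableSet_Good
  have e : VV = {w : ℤ → E | (w 0).2 = false} ∩ (zR ⁻¹' Good ∩ zL ⁻¹' Good) := rfl
  rw [e, indep_of_dep ν {0} hA (hR.inter hL), indep_of_dep ν {n : ℤ | 0 < n} hR hL]
  · congr 1
    · have h1 : iid ℤ ν {w : ℤ → E | w 0 ∈ (univ : Set ℝ) ×ˢ ({false} : Set Bool)} =
          ν ((univ : Set ℝ) ×ˢ ({false} : Set Bool)) :=
        (measurePreserving_eval_infinitePi (fun _ : ℤ => ν) 0).measure_preimage
          (MeasurableSet.univ.prod (measurableSet_singleton false)).nullMeasurableSet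
      have h2 : {w : ℤ → E | w 0 ∈ (univ : Set ℝ) ×ˢ ({false} : Set Bool)} =
          {w : ℤ → E | (w 0).2 = false} := by
        ext w; simp [Set.mem_prod]
      have h3 : ν ((univ : Set ℝ) ×ˢ ({false} : Set Bool)) = β {false} := by
        have := Measure.prod_prod (μ := γ) (ν := β) (univ : Set ℝ) ({false} : Set Bool)
        rwa [measure_univ, one_mul] at this
      rw [h2] at h1
      exact h1.trans h3
    · rw [← Measure.map_apply measurable_zR measurableSet_Good,
        ← Measure.map_apply measurable_zL measurableSet_Good, map_zR, map_zL]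
  · intro z z' hzz h
    have : zR z = zR z' := by
      ext k : 1
      exact hzz _ (by simp only [Set.mem_ofPred_eq]; omega)
    simp only [Set.mem_preimage] at h ⊢
    rwa [← this]
  · intro z z' hzz h
    have : zL z = zL z' := by
      ext k : 1
      exact hzz _ (by simp only [Set.mem_ofPred_eq]; omega)
    simp only [Set.mem_preimage] at h ⊢
    rwa [← this]
  · intro z z' hzz h
    simp only [Set.mem_ofPred_eq] at h ⊢
    rw [← hzz 0 rfl]
    exact h
  · rintro z z' hzz ⟨h1, h2⟩
    have e1 : zR z = zR z' := by
      ext k : 1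
      exact hzz _ (by simp only [Set.mem_singleton_iff]; omega)
    have e2 : zL z = zL z' := by
      ext k : 1
      exact hzz _ (by simp only [Set.mem_singleton_iff]; omega)
    simp only [Set.mem_inter_iff, Set.mem_preimage] at h1 h2 ⊢
    rw [← e1, ← e2]
    exact ⟨h1, h2⟩

lemma measurableSet_VV : MeasurableSet VV := by
  have hA : MeasurableSet {w : ℤ → E | (w 0).2 = false} :=
    (measurable_snd.comp (measurable_pi_apply 0)) (measurableSet_singleton false)
  exact hA.inter ((measurable_zR measurableSet_Good).inter (measurable_zL measurableSet_Good))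

lemma null_of_coord {J : Type*} (h : GapLaw γ) (a : J) (f : (J → E) → ℝ) (hf : Measurable f)
    (hdep : ∀ z z' : J → E, (∀ j, j ≠ a → z j = z' j) → f z = f z') :
    iid J (γ.prod β) {z | (z a).1 = f z} = 0 := by
  have := h.atoms
  set ν := γ.prod β with hν
  have hmeas : MeasurableSet {z : J → E | (z a).1 = f z} :=
    measurableSet_eq_fun (measurable_fst.comp (measurable_pi_apply a)) hf
  rw [← glue_map ν ({a}ᶜ : Set J), Measure.map_apply (measurable_glueF _) hmeas,
    Measure.measure_prod_null ((measurable_glueF _) hmeas)]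
  refine Filter.Eventually.of_forall fun u => ?_
  simp only [Pi.zero_apply]
  have hsub : (Prod.mk u ⁻¹' ((glueF ({a}ᶜ : Set J)) ⁻¹' {z : J → E | (z a).1 = f z}))
      ⊆ {y | y a ∈ ({f u} : Set ℝ) ×ˢ (univ : Set Bool)} := by
    intro y hy
    simp only [Set.mem_preimage, Set.mem_ofPred_eq] at hy
    have h1 : glueF ({a}ᶜ : Set J) (u, y) a = y a := by simp [glueF]
    have h2 : f (glueF ({a}ᶜ : Set J) (u, y)) = f u := by
      apply hdep
      intro j hj
      simp [glueF, hj]
    rw [h1, h2] at hy
    simp [Set.mem_prod, hy]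
  refine measure_mono_null hsub ?_
  have h3 : iid J ν {y : J → E | y a ∈ ({f u} : Set ℝ) ×ˢ (univ : Set Bool)} =
      ν (({f u} : Set ℝ) ×ˢ (univ : Set Bool)) :=
    (measurePreserving_eval_infinitePi (fun _ : J => ν) a).measure_preimage
      ((measurableSet_singleton _).prod MeasurableSet.univ).nullMeasurableSet
  rw [h3, hν, Measure.prod_prod, measure_singleton, zero_mul]

lemma measurable_position (n : ℤ) : Measurable fun w : ℤ → E => position (gp w) n := by
  cases n with
  | ofNat n =>
    simp only [position, gp]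
    exact Finset.measurable_fun_sum _ fun i _ => measurable_fst.comp (measurable_pi_apply _)
  | negSucc n =>
    simp only [position, gp]
    exact (Finset.measurable_fun_sum _ fun i _ => measurable_fst.comp (measurable_pi_apply _)).neg

lemma ae_cfgZ (h : GapLaw γ) : ∀ᵐ w ∂(iid ℤ (γ.prod β)), CfgZ w := by
  set ν := γ.prod β with hν
  have h1 : ∀ᵐ w ∂(iid ℤ ν), ∀ n, 0 < gp w n := by
    rw [ae_all_iff]
    intro n
    have h2 : iid ℤ ν {w : ℤ → E | w n ∈ (Iic (0 : ℝ)) ×ˢ (univ : Set Bool)} =
        ν ((Iic (0 : ℝ)) ×ˢ (univ : Set Bool)) :=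
      (measurePreserving_eval_infinitePi (fun _ : ℤ => ν) n).measure_preimage
        (measurableSet_Iic.prod MeasurableSet.univ).nullMeasurableSet
    have h3 : ν ((Iic (0 : ℝ)) ×ˢ (univ : Set Bool)) = 0 := by
      have := Measure.prod_prod (μ := γ) (ν := β) (Iic (0 : ℝ)) (univ : Set Bool)
      rwa [h.pos, zero_mul] at this
    replace h2 := h2.trans h3
    rw [ae_iff]
    convert h2 using 2
    ext w
    simp [gp, Set.mem_prod]
  have h2 : ∀ᵐ w ∂(iid ℤ ν), Cfg (Xs (zR w)) := by
    have : ∀ᵐ z ∂((iid ℤ ν).map zR), Cfg (Xs z) := by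
      rw [map_zR]; exact ae_cfg (β := β) h
    exact ae_of_ae_map measurable_zR.aemeasurable this
  have h3 : ∀ᵐ w ∂(iid ℤ ν), Cfg (Xs (zL w)) := by
    have : ∀ᵐ z ∂((iid ℤ ν).map zL), Cfg (Xs z) := by
      rw [map_zL]; exact ae_cfg (β := β) h
    exact ae_of_ae_map measurable_zL.aemeasurable this
  have h4 : ∀ᵐ w ∂(iid ℤ ν), ∀ j i k : ℤ, j < i → i < k →
      position (gp w) i - position (gp w) j ≠ position (gp w) k - position (gp w) i := by
    rw [ae_all_iff]; intro j
    rw [ae_all_iff]; intro i
    rw [ae_all_iff]; intro k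
    by_cases hji : j < i
    swap
    · exact Filter.Eventually.of_forall fun z h5 => absurd h5 hji
    by_cases hik : i < k
    swap
    · exact Filter.Eventually.of_forall fun z _ h5 => absurd h5 hik
    rcases lt_or_ge 0 k with hk | hk
    · have h5 := null_of_coord (β := β) h k
        (fun w => 2 * position (gp w) i - position (gp w) j - position (gp w) (k - 1))
        (((measurable_const.mul (measurable_position i)).sub (measurable_position j)).sub
          (measurable_position (k - 1)))
        (by
          intro z z' hzz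
          have hp : ∀ n, n < k → position (gp z) n = position (gp z') n := by
            intro n hn
            apply position_congr
            intro l hl
            have : l ≠ k := by omega
            simp only [gp]
            rw [hzz l this]
          rw [hp i hik, hp j (hji.trans hik), hp (k - 1) (by omega)])
      have h6 : ∀ᵐ w ∂(iid ℤ ν), ¬ ((w k).1 =
          2 * position (gp w) i - position (gp w) j - position (gp w) (k - 1)) := by
        rw [ae_iff]
        simpa using h5
      filter_upwards [h6] with w hw _ _ heq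
      apply hw
      have h7 := position_succ (gp w) (k - 1) (by omega)
      rw [show k - 1 + 1 = k by ring] at h7
      have h8 : gp w k = (w k).1 := rfl
      linarith
    · have h5 := null_of_coord (β := β) h j
        (fun w => position (gp w) (j + 1) - 2 * position (gp w) i + position (gp w) k)
        (((measurable_position (j + 1)).sub (measurable_const.mul (measurable_position i))).add
          (measurable_position k))
        (by
          intro z z' hzz
          have hp : ∀ n, j < n → n ≤ 0 → position (gp z) n = position (gp z') n := by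
            intro n hn hn0
            apply position_congr
            intro l hl
            have : l ≠ j := by omega
            simp only [gp]
            rw [hzz l this]
          rw [hp i hji (by omega), hp (j + 1) (by omega) (by omega), hp k (by omega) hk])
      have h6 : ∀ᵐ w ∂(iid ℤ ν), ¬ ((w j).1 =
          position (gp w) (j + 1) - 2 * position (gp w) i + position (gp w) k) := by
        rw [ae_iff]
        simpa using h5
      filter_upwards [h6] with w hw _ _ heq
      apply hw
      have h7 := position_pred (gp w) j (by omega)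
      have h8 : gp w j = (w j).1 := rfl
      linarith
  filter_upwards [h1, h2, h3, h4] with w a b c d
  exact ⟨a, b, c, d⟩

end Pool.Agent.Lib_helper98.SM
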